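import Pool.Agent.Y974.K3.Pos3
import Pool.Agent.TH722.K6.Second

/-!
# Convexity of the fourth cumulant on the third chaos
-/

set_option autoImplicit false
set_option linter.unusedSectionVars false
set_option linter.unusedSimpArgs false
set_option maxRecDepth 4000

namespace Pool.Agent.Y974.K3

open Finset

section sq

variable {R : Type} [CommRing R] [Algebra ℝ R] {K : Type} [Fintype K] {n : ℕ}

/-- colours of the vertices -/
def col : Fin (2 + 2) → Fin 2 := ![0, 1, 0, 1]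

/-- vertex weights -/
def w4 (c c' : K → R) : Fin (2 + 2) → K → R := fun i => ![c, c'] (col i)

def mPc : Fin (2 + 2) → Fin (2 + 2) → ℕ := ![![0, 1, 2, 0], ![0, 0, 0, 2], ![0, 0, 0, 1], ![0, 0, 0, 0]]
def mX : Fin (2 + 2) → Fin (2 + 2) → ℕ := ![![0, 1, 1, 1], ![0, 0, 1, 1], ![0, 0, 0, 1], ![0, 0, 0, 0]]
def mBB : Fin (2 + 2) → Fin (2 + 2) → ℕ := ![![0, 2, 1, 0], ![0, 0, 0, 1], ![0, 0, 0, 2], ![0, 0, 0, 0]]
def mBT : Fin (2 + 2) → Fin (2 + 2) → ℕ := ![![0, 2, 0, 1], ![0, 0, 1, 0], ![0, 0, 0, 2], ![0, 0, 0, 0]]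
def mU : Fin 2 → Fin 2 → ℕ := ![![0, 1], ![0, 0]]
def mB : Fin 2 → Fin 2 → ℕ := ![![0, 2], ![0, 0]]

theorem inner_w {L : ℕ} (r : K → K → R) (hs : ∀ a b, r a b = r b a) (h : K → Fin n → R)
    (hh : ∀ a b, r a b = ∑ j, h a j * h b j) (c c' : K → R) (m : Fin 2 → Fin 2 → ℕ)
    (m' : Fin 2 → Fin 2 → ℕ) (φ : Fin L → Fin 2) (φ' : Fin L → Fin 2)
    (M : Fin (2 + 2) → Fin (2 + 2) → ℕ) (σ : Equiv.Perm (Fin (2 + 2)))
    (hm : ∀ i j, glue m m' φ φ' i j + glue m m' φ φ' j i = M (σ i) (σ j) + M (σ j) (σ i))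
    (hcol : ∀ i, col i = col (σ i)) :
    ∑ a, T r h ![c, c'] m φ a * T r h ![c, c'] m' φ' a = Y r (w4 c c') M := by
  rw [inner r h hh]
  refine Y_rel r hs (w4 c c') _ M _ σ hm (fun i => ?_)
  have e : Fin.append ![c, c'] ![c, c'] = w4 c c' := by
    funext j
    fin_cases j <;> rfl
  rw [e]
  unfold w4
  rw [hcol i]

variable (r : K → K → R) (hs : ∀ a b, r a b = r b a) (h : K → Fin n → R)
  (hh : ∀ a b, r a b = ∑ j, h a j * h b j)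

include hs hh in
theorem sq_U (c c' : K → R) : ∑ a : Fin 4 → Fin n, (1 * T r h ![c, c'] mU ![0, 0, 1, 1] a) ^ 2 =
    1 * Y r (w4 c c') mPc := by
  have e0_0 : ∑ a : Fin 4 → Fin n, T r h ![c, c'] mU ![0, 0, 1, 1] a * T r h ![c, c'] mU ![0, 0, 1, 1] a = Y r (w4 c c') mPc :=
    inner_w r hs h hh c c' mU mU ![0, 0, 1, 1] ![0, 0, 1, 1] mPc
      ⟨![0, 1, 2, 3], ![0, 1, 2, 3], by decide, by decide⟩ (by decide) (by decide)
  have ex : ∀ a : Fin 4 → Fin n, (1 * T r h ![c, c'] mU ![0, 0, 1, 1] a) ^ 2 =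
      1 * (T r h ![c, c'] mU ![0, 0, 1, 1] a * T r h ![c, c'] mU ![0, 0, 1, 1] a) := by
    intro a; ring
  rw [Finset.sum_congr rfl fun a _ => ex a]
  simp only [Finset.sum_add_distrib, ← Finset.mul_sum, e0_0]
  try ring

include hs hh in
theorem sq_B (c c' : K → R) : ∑ a : Fin 2 → Fin n, (1 * T r h ![c, c'] mB ![0, 1] a) ^ 2 =
    1 * Y r (w4 c c') mBB := by
  have e0_0 : ∑ a : Fin 2 → Fin n, T r h ![c, c'] mB ![0, 1] a * T r h ![c, c'] mB ![0, 1] a = Y r (w4 c c') mBB :=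
    inner_w r hs h hh c c' mB mB ![0, 1] ![0, 1] mBB
      ⟨![0, 1, 2, 3], ![0, 1, 2, 3], by decide, by decide⟩ (by decide) (by decide)
  have ex : ∀ a : Fin 2 → Fin n, (1 * T r h ![c, c'] mB ![0, 1] a) ^ 2 =
      1 * (T r h ![c, c'] mB ![0, 1] a * T r h ![c, c'] mB ![0, 1] a) := by
    intro a; ring
  rw [Finset.sum_congr rfl fun a _ => ex a]
  simp only [Finset.sum_add_distrib, ← Finset.mul_sum, e0_0]
  try ring

include hs hh in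
theorem sq_BB (c c' : K → R) : ∑ a : Fin 2 → Fin n, (1 * T r h ![c, c'] mB ![0, 1] a + 1 * T r h ![c, c'] mB ![1, 0] a) ^ 2 =
    2 * Y r (w4 c c') mBB + 2 * Y r (w4 c c') mBT := by
  have e0_0 : ∑ a : Fin 2 → Fin n, T r h ![c, c'] mB ![0, 1] a * T r h ![c, c'] mB ![0, 1] a = Y r (w4 c c') mBB :=
    inner_w r hs h hh c c' mB mB ![0, 1] ![0, 1] mBB
      ⟨![0, 1, 2, 3], ![0, 1, 2, 3], by decide, by decide⟩ (by decide) (by decide)
  have e0_1 : ∑ a : Fin 2 → Fin n, T r h ![c, c'] mB ![0, 1] a * T r h ![c, c'] mB ![1, 0] a = Y r (w4 c c') mBT :=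
    inner_w r hs h hh c c' mB mB ![0, 1] ![1, 0] mBT
      ⟨![0, 1, 2, 3], ![0, 1, 2, 3], by decide, by decide⟩ (by decide) (by decide)
  have e1_1 : ∑ a : Fin 2 → Fin n, T r h ![c, c'] mB ![1, 0] a * T r h ![c, c'] mB ![1, 0] a = Y r (w4 c c') mBB :=
    inner_w r hs h hh c c' mB mB ![1, 0] ![1, 0] mBB
      ⟨![0, 1, 2, 3], ![0, 1, 2, 3], by decide, by decide⟩ (by decide) (by decide)
  have ex : ∀ a : Fin 2 → Fin n, (1 * T r h ![c, c'] mB ![0, 1] a + 1 * T r h ![c, c'] mB ![1, 0] a) ^ 2 =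
      1 * (T r h ![c, c'] mB ![0, 1] a * T r h ![c, c'] mB ![0, 1] a) + 2 * (T r h ![c, c'] mB ![0, 1] a * T r h ![c, c'] mB ![1, 0] a) + 1 * (T r h ![c, c'] mB ![1, 0] a * T r h ![c, c'] mB ![1, 0] a) := by
    intro a; ring
  rw [Finset.sum_congr rfl fun a _ => ex a]
  simp only [Finset.sum_add_distrib, ← Finset.mul_sum, e0_0, e0_1, e1_1]
  try ring

include hs hh in
theorem sq_SU (c c' : K → R) : ∑ a : Fin 4 → Fin n, (1 * T r h ![c, c'] mU ![0, 0, 1, 1] a + 1 * T r h ![c, c'] mU ![0, 1, 0, 1] a + 1 * T r h ![c, c'] mU ![0, 1, 1, 0] a + 1 * T r h ![c, c'] mU ![1, 0, 0, 1] a + 1 * T r h ![c, c'] mU ![1, 0, 1, 0] a + 1 * T r h ![c, c'] mU ![1, 1, 0, 0] a) ^ 2 =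
    6 * Y r (w4 c c') mBT + 6 * Y r (w4 c c') mPc + 24 * Y r (w4 c c') mX := by
  have e0_0 : ∑ a : Fin 4 → Fin n, T r h ![c, c'] mU ![0, 0, 1, 1] a * T r h ![c, c'] mU ![0, 0, 1, 1] a = Y r (w4 c c') mPc :=
    inner_w r hs h hh c c' mU mU ![0, 0, 1, 1] ![0, 0, 1, 1] mPc
      ⟨![0, 1, 2, 3], ![0, 1, 2, 3], by decide, by decide⟩ (by decide) (by decide)
  have e0_1 : ∑ a : Fin 4 → Fin n, T r h ![c, c'] mU ![0, 0, 1, 1] a * T r h ![c, c'] mU ![0, 1, 0, 1] a = Y r (w4 c c') mX :=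
    inner_w r hs h hh c c' mU mU ![0, 0, 1, 1] ![0, 1, 0, 1] mX
      ⟨![0, 1, 2, 3], ![0, 1, 2, 3], by decide, by decide⟩ (by decide) (by decide)
  have e0_2 : ∑ a : Fin 4 → Fin n, T r h ![c, c'] mU ![0, 0, 1, 1] a * T r h ![c, c'] mU ![0, 1, 1, 0] a = Y r (w4 c c') mX :=
    inner_w r hs h hh c c' mU mU ![0, 0, 1, 1] ![0, 1, 1, 0] mX
      ⟨![0, 1, 2, 3], ![0, 1, 2, 3], by decide, by decide⟩ (by decide) (by decide)
  have e0_3 : ∑ a : Fin 4 → Fin n, T r h ![c, c'] mU ![0, 0, 1, 1] a * T r h ![c, c'] mU ![1, 0, 0, 1] a = Y r (w4 c c') mX :=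
    inner_w r hs h hh c c' mU mU ![0, 0, 1, 1] ![1, 0, 0, 1] mX
      ⟨![0, 1, 2, 3], ![0, 1, 2, 3], by decide, by decide⟩ (by decide) (by decide)
  have e0_4 : ∑ a : Fin 4 → Fin n, T r h ![c, c'] mU ![0, 0, 1, 1] a * T r h ![c, c'] mU ![1, 0, 1, 0] a = Y r (w4 c c') mX :=
    inner_w r hs h hh c c' mU mU ![0, 0, 1, 1] ![1, 0, 1, 0] mX
      ⟨![0, 1, 2, 3], ![0, 1, 2, 3], by decide, by decide⟩ (by decide) (by decide)
  have e0_5 : ∑ a : Fin 4 → Fin n, T r h ![c, c'] mU ![0, 0, 1, 1] a * T r h ![c, c'] mU ![1, 1, 0, 0] a = Y r (w4 c c') mBT :=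
    inner_w r hs h hh c c' mU mU ![0, 0, 1, 1] ![1, 1, 0, 0] mBT
      ⟨![0, 3, 2, 1], ![0, 3, 2, 1], by decide, by decide⟩ (by decide) (by decide)
  have e1_1 : ∑ a : Fin 4 → Fin n, T r h ![c, c'] mU ![0, 1, 0, 1] a * T r h ![c, c'] mU ![0, 1, 0, 1] a = Y r (w4 c c') mPc :=
    inner_w r hs h hh c c' mU mU ![0, 1, 0, 1] ![0, 1, 0, 1] mPc
      ⟨![0, 1, 2, 3], ![0, 1, 2, 3], by decide, by decide⟩ (by decide) (by decide)
  have e1_2 : ∑ a : Fin 4 → Fin n, T r h ![c, c'] mU ![0, 1, 0, 1] a * T r h ![c, c'] mU ![0, 1, 1, 0] a = Y r (w4 c c') mX :=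
    inner_w r hs h hh c c' mU mU ![0, 1, 0, 1] ![0, 1, 1, 0] mX
      ⟨![0, 1, 2, 3], ![0, 1, 2, 3], by decide, by decide⟩ (by decide) (by decide)
  have e1_3 : ∑ a : Fin 4 → Fin n, T r h ![c, c'] mU ![0, 1, 0, 1] a * T r h ![c, c'] mU ![1, 0, 0, 1] a = Y r (w4 c c') mX :=
    inner_w r hs h hh c c' mU mU ![0, 1, 0, 1] ![1, 0, 0, 1] mX
      ⟨![0, 1, 2, 3], ![0, 1, 2, 3], by decide, by decide⟩ (by decide) (by decide)
  have e1_4 : ∑ a : Fin 4 → Fin n, T r h ![c, c'] mU ![0, 1, 0, 1] a * T r h ![c, c'] mU ![1, 0, 1, 0] a = Y r (w4 c c') mBT :=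
    inner_w r hs h hh c c' mU mU ![0, 1, 0, 1] ![1, 0, 1, 0] mBT
      ⟨![0, 3, 2, 1], ![0, 3, 2, 1], by decide, by decide⟩ (by decide) (by decide)
  have e1_5 : ∑ a : Fin 4 → Fin n, T r h ![c, c'] mU ![0, 1, 0, 1] a * T r h ![c, c'] mU ![1, 1, 0, 0] a = Y r (w4 c c') mX :=
    inner_w r hs h hh c c' mU mU ![0, 1, 0, 1] ![1, 1, 0, 0] mX
      ⟨![0, 1, 2, 3], ![0, 1, 2, 3], by decide, by decide⟩ (by decide) (by decide)
  have e2_2 : ∑ a : Fin 4 → Fin n, T r h ![c, c'] mU ![0, 1, 1, 0] a * T r h ![c, c'] mU ![0, 1, 1, 0] a = Y r (w4 c c') mPc :=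
    inner_w r hs h hh c c' mU mU ![0, 1, 1, 0] ![0, 1, 1, 0] mPc
      ⟨![0, 1, 2, 3], ![0, 1, 2, 3], by decide, by decide⟩ (by decide) (by decide)
  have e2_3 : ∑ a : Fin 4 → Fin n, T r h ![c, c'] mU ![0, 1, 1, 0] a * T r h ![c, c'] mU ![1, 0, 0, 1] a = Y r (w4 c c') mBT :=
    inner_w r hs h hh c c' mU mU ![0, 1, 1, 0] ![1, 0, 0, 1] mBT
      ⟨![0, 3, 2, 1], ![0, 3, 2, 1], by decide, by decide⟩ (by decide) (by decide)
  have e2_4 : ∑ a : Fin 4 → Fin n, T r h ![c, c'] mU ![0, 1, 1, 0] a * T r h ![c, c'] mU ![1, 0, 1, 0] a = Y r (w4 c c') mX :=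
    inner_w r hs h hh c c' mU mU ![0, 1, 1, 0] ![1, 0, 1, 0] mX
      ⟨![0, 1, 2, 3], ![0, 1, 2, 3], by decide, by decide⟩ (by decide) (by decide)
  have e2_5 : ∑ a : Fin 4 → Fin n, T r h ![c, c'] mU ![0, 1, 1, 0] a * T r h ![c, c'] mU ![1, 1, 0, 0] a = Y r (w4 c c') mX :=
    inner_w r hs h hh c c' mU mU ![0, 1, 1, 0] ![1, 1, 0, 0] mX
      ⟨![0, 1, 2, 3], ![0, 1, 2, 3], by decide, by decide⟩ (by decide) (by decide)
  have e3_3 : ∑ a : Fin 4 → Fin n, T r h ![c, c'] mU ![1, 0, 0, 1] a * T r h ![c, c'] mU ![1, 0, 0, 1] a = Y r (w4 c c') mPc :=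
    inner_w r hs h hh c c' mU mU ![1, 0, 0, 1] ![1, 0, 0, 1] mPc
      ⟨![0, 1, 2, 3], ![0, 1, 2, 3], by decide, by decide⟩ (by decide) (by decide)
  have e3_4 : ∑ a : Fin 4 → Fin n, T r h ![c, c'] mU ![1, 0, 0, 1] a * T r h ![c, c'] mU ![1, 0, 1, 0] a = Y r (w4 c c') mX :=
    inner_w r hs h hh c c' mU mU ![1, 0, 0, 1] ![1, 0, 1, 0] mX
      ⟨![0, 1, 2, 3], ![0, 1, 2, 3], by decide, by decide⟩ (by decide) (by decide)
  have e3_5 : ∑ a : Fin 4 → Fin n, T r h ![c, c'] mU ![1, 0, 0, 1] a * T r h ![c, c'] mU ![1, 1, 0, 0] a = Y r (w4 c c') mX :=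
    inner_w r hs h hh c c' mU mU ![1, 0, 0, 1] ![1, 1, 0, 0] mX
      ⟨![0, 1, 2, 3], ![0, 1, 2, 3], by decide, by decide⟩ (by decide) (by decide)
  have e4_4 : ∑ a : Fin 4 → Fin n, T r h ![c, c'] mU ![1, 0, 1, 0] a * T r h ![c, c'] mU ![1, 0, 1, 0] a = Y r (w4 c c') mPc :=
    inner_w r hs h hh c c' mU mU ![1, 0, 1, 0] ![1, 0, 1, 0] mPc
      ⟨![0, 1, 2, 3], ![0, 1, 2, 3], by decide, by decide⟩ (by decide) (by decide)
  have e4_5 : ∑ a : Fin 4 → Fin n, T r h ![c, c'] mU ![1, 0, 1, 0] a * T r h ![c, c'] mU ![1, 1, 0, 0] a = Y r (w4 c c') mX :=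
    inner_w r hs h hh c c' mU mU ![1, 0, 1, 0] ![1, 1, 0, 0] mX
      ⟨![0, 1, 2, 3], ![0, 1, 2, 3], by decide, by decide⟩ (by decide) (by decide)
  have e5_5 : ∑ a : Fin 4 → Fin n, T r h ![c, c'] mU ![1, 1, 0, 0] a * T r h ![c, c'] mU ![1, 1, 0, 0] a = Y r (w4 c c') mPc :=
    inner_w r hs h hh c c' mU mU ![1, 1, 0, 0] ![1, 1, 0, 0] mPc
      ⟨![0, 1, 2, 3], ![0, 1, 2, 3], by decide, by decide⟩ (by decide) (by decide)
  have ex : ∀ a : Fin 4 → Fin n, (1 * T r h ![c, c'] mU ![0, 0, 1, 1] a + 1 * T r h ![c, c'] mU ![0, 1, 0, 1] a + 1 * T r h ![c, c'] mU ![0, 1, 1, 0] a + 1 * T r h ![c, c'] mU ![1, 0, 0, 1] a + 1 * T r h ![c, c'] mU ![1, 0, 1, 0] a + 1 * T r h ![c, c'] mU ![1, 1, 0, 0] a) ^ 2 =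
      1 * (T r h ![c, c'] mU ![0, 0, 1, 1] a * T r h ![c, c'] mU ![0, 0, 1, 1] a) + 2 * (T r h ![c, c'] mU ![0, 0, 1, 1] a * T r h ![c, c'] mU ![0, 1, 0, 1] a) + 2 * (T r h ![c, c'] mU ![0, 0, 1, 1] a * T r h ![c, c'] mU ![0, 1, 1, 0] a) + 2 * (T r h ![c, c'] mU ![0, 0, 1, 1] a * T r h ![c, c'] mU ![1, 0, 0, 1] a) + 2 * (T r h ![c, c'] mU ![0, 0, 1, 1] a * T r h ![c, c'] mU ![1, 0, 1, 0] a) + 2 * (T r h ![c, c'] mU ![0, 0, 1, 1] a * T r h ![c, c'] mU ![1, 1, 0, 0] a) + 1 * (T r h ![c, c'] mU ![0, 1, 0, 1] a * T r h ![c, c'] mU ![0, 1, 0, 1] a) + 2 * (T r h ![c, c'] mU ![0, 1, 0, 1] a * T r h ![c, c'] mU ![0, 1, 1, 0] a) + 2 * (T r h ![c, c'] mU ![0, 1, 0, 1] a * T r h ![c, c'] mU ![1, 0, 0, 1] a) + 2 * (T r h ![c, c'] mU ![0, 1, 0, 1] a * T r h ![c, c'] mU ![1, 0, 1, 0] a) + 2 * (T r h ![c, c'] mU ![0, 1, 0, 1] a * T r h ![c, c'] mU ![1, 1, 0, 0] a) + 1 * (T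 r h ![c, c'] mU ![0, 1, 1, 0] a * T r h ![c, c'] mU ![0, 1, 1, 0] a) + 2 * (T r h ![c, c'] mU ![0, 1, 1, 0] a * T r h ![c, c'] mU ![1, 0, 0, 1] a) + 2 * (T r h ![c, c'] mU ![0, 1, 1, 0] a * T r h ![c, c'] mU ![1, 0, 1, 0] a) + 2 * (T r h ![c, c'] mU ![0, 1, 1, 0] a * T r h ![c, c'] mU ![1, 1, 0, 0] a) + 1 * (T r h ![c, c'] mU ![1, 0, 0, 1] a * T r h ![c, c'] mU ![1, 0, 0, 1] a) + 2 * (T r h ![c, c'] mU ![1, 0, 0, 1] a * T r h ![c, c'] mU ![1, 0, 1, 0] a) + 2 * (T r h ![c, c'] mU ![1, 0, 0, 1] a * T r h ![c, c'] mU ![1, 1, 0, 0] a) + 1 * (T r h ![c, c'] mU ![1, 0, 1, 0] a * T r h ![c, c'] mU ![1, 0, 1, 0] a) + 2 * (T r h ![c, c'] mU ![1, 0, 1, 0] a * T r h ![c, c'] mU ![1, 1, 0, 0] a) + 1 * (T r h ![c, c'] mU ![1, 1, 0, 0] a * T r h ![c, c'] mU ![1, 1, 0, 0] a) := by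
    intro a; ring
  rw [Finset.sum_congr rfl fun a _ => ex a]
  simp only [Finset.sum_add_distrib, ← Finset.mul_sum, e0_0, e0_1, e0_2, e0_3, e0_4, e0_5, e1_1, e1_2, e1_3, e1_4, e1_5, e2_2, e2_3, e2_4, e2_5, e3_3, e3_4, e3_5, e4_4, e4_5, e5_5]
  try ring

end sq

section poly

open MvPolynomial Pool.Agent.TH722.K6

variable {β : Type} [Fintype β] [DecidableEq β] {n : ℕ} {K : Type} [Fintype K]

theorem Hs_const_mul (b : β) (w : Fin n → MvPolynomial (β × Fin n) ℝ)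
    (Q P : MvPolynomial (β × Fin n) ℝ) (hQ : ∀ i, pderiv (b, i) Q = 0) :
    Hs b w (Q * P) = Q * Hs b w P := by
  rw [Hs_mul, Dw_apply]
  have e1 : Hs b w Q = 0 := by
    unfold Hs
    exact Finset.sum_eq_zero fun i _ => Finset.sum_eq_zero fun j _ => by rw [hQ, map_zero, mul_zero]
  have e2 : ∑ i, w i * pderiv (b, i) Q = 0 := Finset.sum_eq_zero fun i _ => by rw [hQ, mul_zero]
  rw [e1, e2]
  ring

theorem Hs_four (b : β) (w : Fin n → MvPolynomial (β × Fin n) ℝ)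
    (x y z u : MvPolynomial (β × Fin n) ℝ) (hx : Hs b w x = 0) (hy : Hs b w y = 0)
    (hz : Hs b w z = 0) (hu : Hs b w u = 0) :
    Hs b w (x * y * z * u) = 2 * (Dw b w x * Dw b w y * z * u + Dw b w x * y * Dw b w z * u +
      Dw b w x * y * z * Dw b w u + x * Dw b w y * Dw b w z * u + x * Dw b w y * z * Dw b w u +
      x * y * Dw b w z * Dw b w u) := by
  rw [Hs_mul, Hs_mul, Hs_mul, hx, hy, hz, hu, Derivation.leibniz, Derivation.leibniz]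
  simp only [smul_eq_mul]
  ring

variable (r : K → K → MvPolynomial (β × Fin n) ℝ) (b : β)
  (hr : ∀ i a a', pderiv (b, i) (r a a') = 0)

include hr in
theorem pd_W {V : ℕ} (m : Fin V → Fin V → ℕ) (κ : Fin V → K) (i : Fin n) :
    pderiv (b, i) (W r m κ) = 0 := by
  unfold W
  rw [deriv_prod]
  refine Finset.sum_eq_zero fun a _ => ?_
  rw [deriv_prod, Finset.sum_eq_zero, mul_zero]
  intro a' _
  rw [Derivation.leibniz_pow, hr]; simp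

include hr in
theorem Hs_Y4 (w : Fin n → MvPolynomial (β × Fin n) ℝ) (c c' : K → MvPolynomial (β × Fin n) ℝ)
    (hc : ∀ k, Hs b w (c k) = 0) (hc' : ∀ k, c' k = Dw b w (c k)) (m : Fin 4 → Fin 4 → ℕ) :
    Hs b w (Y r (fun _ => c) m) = 2 * (Y r ![c', c', c, c] m + Y r ![c', c, c', c] m +
      Y r ![c', c, c, c'] m + Y r ![c, c', c', c] m + Y r ![c, c', c, c'] m +
      Y r ![c, c, c', c'] m) := by
  unfold Y
  rw [Hs_sum]
  simp only [← Finset.sum_add_distrib, Finset.mul_sum]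
  refine Finset.sum_congr rfl fun κ _ => ?_
  rw [Hs_const_mul b w _ _ (pd_W r b hr m κ)]
  simp only [Fin.prod_univ_four]
  rw [Hs_four b w _ _ _ _ (hc _) (hc _) (hc _) (hc _)]
  simp only [Matrix.cons_val_zero, Matrix.cons_val_one, Matrix.cons_val, hc']
  ring


theorem Hs_add (b : β) (w : Fin n → MvPolynomial (β × Fin n) ℝ)
    (P Q : MvPolynomial (β × Fin n) ℝ) : Hs b w (P + Q) = Hs b w P + Hs b w Q := by
  unfold Hs
  simp only [map_add, mul_add, Finset.sum_add_distrib]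

include hr in
theorem Cvx_k4 (hs : ∀ a a', r a a' = r a' a) (h : K → Fin n → MvPolynomial (β × Fin n) ℝ)
    (hh : ∀ a a', r a a' = ∑ j, h a j * h a' j) (c : K → MvPolynomial (β × Fin n) ℝ)
    (hc : ∀ w k, Hs b w (c k) = 0) :
    Cvx b (1944 * Y r (fun _ => c) P3V4.m16 + 1296 * Y r (fun _ => c) P3V4.m15) := by
  intro w
  obtain ⟨c', hc'⟩ : ∃ c' : K → MvPolynomial (β × Fin n) ℝ, ∀ k, c' k = Dw b w (c k) :=
    ⟨fun k => Dw b w (c k), fun _ => rfl⟩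
  have num : ∀ (k : ℕ) (i : Fin n), pderiv (b, i) ((k : ℕ) : MvPolynomial (β × Fin n) ℝ) = 0 :=
    fun k i => Derivation.map_natCast _ _
  have n1 := Hs_const_mul b w ((1944 : ℕ) : MvPolynomial (β × Fin n) ℝ)
    (Y r (fun _ => c) P3V4.m16) (num 1944)
  have n2 := Hs_const_mul b w ((1296 : ℕ) : MvPolynomial (β × Fin n) ℝ)
    (Y r (fun _ => c) P3V4.m15) (num 1296)
  push_cast at n1 n2
  rw [Hs_add, n1, n2, Hs_Y4 r b hr w c c' (hc w) hc', Hs_Y4 r b hr w c c' (hc w) hc']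
  have m16_01 : Y r ![c', c', c, c] P3V4.m16 = Y r (w4 c c') mPc :=
    Y_rel r hs (w4 c c') _ mPc P3V4.m16 ⟨![1, 3, 0, 2], ![2, 0, 3, 1], by decide, by decide⟩ (by decide)
      (fun i => by fin_cases i <;> rfl)
  have m16_02 : Y r ![c', c, c', c] P3V4.m16 = Y r (w4 c c') mBB :=
    Y_rel r hs (w4 c c') _ mBB P3V4.m16 ⟨![1, 0, 3, 2], ![1, 0, 3, 2], by decide, by decide⟩ (by decide)
      (fun i => by fin_cases i <;> rfl)
  have m16_03 : Y r ![c', c, c, c'] P3V4.m16 = Y r (w4 c c') mBT :=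
    Y_rel r hs (w4 c c') _ mBT P3V4.m16 ⟨![1, 0, 2, 3], ![1, 0, 2, 3], by decide, by decide⟩ (by decide)
      (fun i => by fin_cases i <;> rfl)
  have m16_12 : Y r ![c, c', c', c] P3V4.m16 = Y r (w4 c c') mBT :=
    Y_rel r hs (w4 c c') _ mBT P3V4.m16 ⟨![0, 1, 3, 2], ![0, 1, 3, 2], by decide, by decide⟩ (by decide)
      (fun i => by fin_cases i <;> rfl)
  have m16_13 : Y r ![c, c', c, c'] P3V4.m16 = Y r (w4 c c') mBB :=
    Y_rel r hs (w4 c c') _ mBB P3V4.m16 ⟨![0, 1, 2, 3], ![0, 1, 2, 3], by decide, by decide⟩ (by decide)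
      (fun i => by fin_cases i <;> rfl)
  have m16_23 : Y r ![c, c, c', c'] P3V4.m16 = Y r (w4 c c') mPc :=
    Y_rel r hs (w4 c c') _ mPc P3V4.m16 ⟨![0, 2, 1, 3], ![0, 2, 1, 3], by decide, by decide⟩ (by decide)
      (fun i => by fin_cases i <;> rfl)
  have m15_01 : Y r ![c', c', c, c] P3V4.m15 = Y r (w4 c c') mX :=
    Y_rel r hs (w4 c c') _ mX P3V4.m15 ⟨![1, 3, 0, 2], ![2, 0, 3, 1], by decide, by decide⟩ (by decide)
      (fun i => by fin_cases i <;> rfl)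
  have m15_02 : Y r ![c', c, c', c] P3V4.m15 = Y r (w4 c c') mX :=
    Y_rel r hs (w4 c c') _ mX P3V4.m15 ⟨![1, 0, 3, 2], ![1, 0, 3, 2], by decide, by decide⟩ (by decide)
      (fun i => by fin_cases i <;> rfl)
  have m15_03 : Y r ![c', c, c, c'] P3V4.m15 = Y r (w4 c c') mX :=
    Y_rel r hs (w4 c c') _ mX P3V4.m15 ⟨![1, 0, 2, 3], ![1, 0, 2, 3], by decide, by decide⟩ (by decide)
      (fun i => by fin_cases i <;> rfl)
  have m15_12 : Y r ![c, c', c', c] P3V4.m15 = Y r (w4 c c') mX :=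
    Y_rel r hs (w4 c c') _ mX P3V4.m15 ⟨![0, 1, 3, 2], ![0, 1, 3, 2], by decide, by decide⟩ (by decide)
      (fun i => by fin_cases i <;> rfl)
  have m15_13 : Y r ![c, c', c, c'] P3V4.m15 = Y r (w4 c c') mX :=
    Y_rel r hs (w4 c c') _ mX P3V4.m15 ⟨![0, 1, 2, 3], ![0, 1, 2, 3], by decide, by decide⟩ (by decide)
      (fun i => by fin_cases i <;> rfl)
  have m15_23 : Y r ![c, c, c', c'] P3V4.m15 = Y r (w4 c c') mX :=
    Y_rel r hs (w4 c c') _ mX P3V4.m15 ⟨![0, 2, 1, 3], ![0, 2, 1, 3], by decide, by decide⟩ (by decide)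
      (fun i => by fin_cases i <;> rfl)
  rw [m16_01, m16_02, m16_03, m16_12, m16_13, m16_23, m15_01, m15_02, m15_03, m15_12, m15_13, m15_23]
  have key : 1944 * (2 * (Y r (w4 c c') mPc + Y r (w4 c c') mBB + Y r (w4 c c') mBT +
      Y r (w4 c c') mBT + Y r (w4 c c') mBB + Y r (w4 c c') mPc)) +
      1296 * (2 * (Y r (w4 c c') mX + Y r (w4 c c') mX + Y r (w4 c c') mX + Y r (w4 c c') mX +
        Y r (w4 c c') mX + Y r (w4 c c') mX)) =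
      ((648 : ℕ) : MvPolynomial (β × Fin n) ℝ) * (∑ a : Fin 4 → Fin n,
        (1 * T r h ![c, c'] mU ![0, 0, 1, 1] a + 1 * T r h ![c, c'] mU ![0, 1, 0, 1] a +
        1 * T r h ![c, c'] mU ![0, 1, 1, 0] a + 1 * T r h ![c, c'] mU ![1, 0, 0, 1] a +
        1 * T r h ![c, c'] mU ![1, 0, 1, 0] a + 1 * T r h ![c, c'] mU ![1, 1, 0, 0] a) ^ 2) +
      ((3888 : ℕ) : MvPolynomial (β × Fin n) ℝ) * (∑ a : Fin 4 → Fin n,
        (1 * T r h ![c, c'] mU ![0, 0, 1, 1] a) ^ 2) +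
      ((3888 : ℕ) : MvPolynomial (β × Fin n) ℝ) * (∑ a : Fin 2 → Fin n,
        (1 * T r h ![c, c'] mB ![0, 1] a) ^ 2) +
      ((1944 : ℕ) : MvPolynomial (β × Fin n) ℝ) * (∑ a : Fin 2 → Fin n,
        (1 * T r h ![c, c'] mB ![0, 1] a + 1 * T r h ![c, c'] mB ![1, 0] a) ^ 2) := by
    rw [sq_SU r hs h hh c c', sq_U r hs h hh c c', sq_B r hs h hh c c', sq_BB r hs h hh c c']
    push_cast
    ring
  have sq : ∀ {L : ℕ} (f : (Fin L → Fin n) → MvPolynomial (β × Fin n) ℝ) (k : ℕ),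
      0 ≤ Ex ((k : MvPolynomial (β × Fin n) ℝ) * ∑ a, f a ^ 2) := by
    intro L f k
    rw [← nsmul_eq_mul, map_nsmul, nsmul_eq_mul, map_sum]
    exact mul_nonneg (Nat.cast_nonneg k) (Finset.sum_nonneg fun a _ => Ex_sq_nonneg _)
  refine (?_ : (0 : ℝ) ≤ _).trans_eq (congrArg Ex (Eq.trans key.symm ?_))
  · rw [map_add, map_add, map_add]
    exact add_nonneg (add_nonneg (add_nonneg (sq _ _) (sq _ _)) (sq _ _)) (sq _ _)
  · rfl

end poly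

end Pool.Agent.Y974.K3
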