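import Pool.Agent.Y974.K3.Third

/-!
# The sixth cumulant of third chaos elements with multilinear coefficients
-/

set_option autoImplicit false
set_option linter.unusedSectionVars false
set_option linter.unusedSimpArgs false

namespace Pool.Agent.Y974.K3

open Finset MvPolynomial Pool.Agent.TH722.K6

variable {β : Type} [Fintype β] [DecidableEq β] {n : ℕ}

/-- symmetric families -/
def Sy (a : Fin n × Fin n × Fin n → List (Fin n) → ℝ) : Prop :=
  (∀ x y z, a (x, y, z) = a (y, x, z)) ∧ ∀ x y z, a (x, y, z) = a (x, z, y)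

variable (b : β) (L : List β) (a : Fin n × Fin n × Fin n → List (Fin n) → ℝ) (hb : b ∉ L)

/-- the vectors of the system as constant polynomials -/
noncomputable def hp (k : KK n) (j : Fin n) : MvPolynomial (β × Fin n) ℝ := C (hv k j)

theorem pol (ha : Sy a) (i j k : Fin n) :
    ∑ κ : KK n, (sys b L a hb).c κ * (hp κ i * hp κ j * hp κ k) = F L (a (i, j, k)) := by
  rw [Fintype.sum_prod_type]
  have e1 : ∀ t : Fin n × Fin n × Fin n, ∑ s : Bool × Bool, (sys b L a hb).c (t, s) *
      (hp (t, s) i * hp (t, s) j * hp (t, s) k) =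
      C ((1 / 6 : ℝ) * (
        (if i = t.1 then 1 else 0) * (if j = t.2.1 then 1 else 0) * (if k = t.2.2 then 1 else 0) +
        (if i = t.1 then 1 else 0) * (if k = t.2.1 then 1 else 0) * (if j = t.2.2 then 1 else 0) +
        (if j = t.1 then 1 else 0) * (if i = t.2.1 then 1 else 0) * (if k = t.2.2 then 1 else 0) +
        (if j = t.1 then 1 else 0) * (if k = t.2.1 then 1 else 0) * (if i = t.2.2 then 1 else 0) +
        (if k = t.1 then 1 else 0) * (if i = t.2.1 then 1 else 0) * (if j = t.2.2 then 1 else 0) +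
        (if k = t.1 then 1 else 0) * (if j = t.2.1 then 1 else 0) * (if i = t.2.2 then 1 else 0)))
      * F L (a t) := by
    intro t
    have e2 : ∀ s : Bool × Bool, (sys b L a hb).c (t, s) *
        (hp (t, s) i * hp (t, s) j * hp (t, s) k) =
        C (sg s.1 * sg s.2 / 24 * (hv (t, s) i * hv (t, s) j * hv (t, s) k)) * F L (a t) := by
      intro s
      show C (sg s.1 * sg s.2 / 24) * F L (a t) * (C (hv (t, s) i) * C (hv (t, s) j) *
        C (hv (t, s) k)) = _
      rw [C_mul, C_mul, C_mul]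
      ring
    simp only [e2]
    rw [← Finset.sum_mul, ← map_sum]
    congr 2
    rw [Fintype.sum_prod_type]
    simp only [Fintype.sum_bool]
    unfold hv sg
    simp only [if_true, if_false, Bool.false_eq_true]
    generalize (if i = t.1 then (1 : ℝ) else 0) = p1
    generalize (if j = t.1 then (1 : ℝ) else 0) = p2
    generalize (if k = t.1 then (1 : ℝ) else 0) = p3
    generalize (if i = t.2.1 then (1 : ℝ) else 0) = q1
    generalize (if j = t.2.1 then (1 : ℝ) else 0) = q2
    generalize (if k = t.2.1 then (1 : ℝ) else 0) = q3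
    generalize (if i = t.2.2 then (1 : ℝ) else 0) = r1
    generalize (if j = t.2.2 then (1 : ℝ) else 0) = r2
    generalize (if k = t.2.2 then (1 : ℝ) else 0) = r3
    ring
  simp only [e1]
  have e3 : ∀ x y z : Fin n, ∑ t : Fin n × Fin n × Fin n,
      C ((if x = t.1 then (1 : ℝ) else 0) * (if y = t.2.1 then 1 else 0) *
        (if z = t.2.2 then 1 else 0)) * F L (a t) = F L (a (x, y, z)) := by
    intro x y z
    rw [Finset.sum_eq_single (x, y, z)]
    · simp
    · intro t _ ht
      by_cases h1 : x = t.1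
      · by_cases h2 : y = t.2.1
        · by_cases h3 : z = t.2.2
          · exfalso; apply ht; rw [h1, h2, h3]
          · simp [h3]
        · simp [h2]
      · simp [h1]
    · intro h; exact absurd (Finset.mem_univ _) h
  have s1 : a (i, k, j) = a (i, j, k) := ha.2 _ _ _
  have s2 : a (j, i, k) = a (i, j, k) := ha.1 _ _ _
  have s3 : a (j, k, i) = a (i, j, k) := by rw [ha.2, s2]
  have s4 : a (k, i, j) = a (i, j, k) := by rw [ha.1, s1]
  have s5 : a (k, j, i) = a (i, j, k) := by rw [ha.1, s3]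
  simp only [mul_add, map_add, add_mul, Finset.sum_add_distrib]
  have e4 : ∀ x y z : Fin n, ∑ t : Fin n × Fin n × Fin n,
      C ((1 / 6 : ℝ) * ((if x = t.1 then (1 : ℝ) else 0) * (if y = t.2.1 then 1 else 0) *
        (if z = t.2.2 then 1 else 0))) * F L (a t) = C (1 / 6) * F L (a (x, y, z)) := by
    intro x y z
    rw [← e3, Finset.mul_sum]
    refine Finset.sum_congr rfl fun t _ => ?_
    rw [C_mul]
    ring
  rw [e4, e4, e4, e4, e4, e4, s1, s2, s3, s4, s5]
  have h6 : (C (1 / 6 : ℝ) : MvPolynomial (β × Fin n) ℝ) * 6 = 1 := by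
    have : (6 : MvPolynomial (β × Fin n) ℝ) = C 6 := (map_ofNat C 6).symm
    rw [this, ← C_mul]; norm_num
  linear_combination F L (a (i, j, k)) * h6

theorem hh_sys (x y : KK n) : (sys b L a hb).r x y = ∑ j, hp x j * hp y j := rfl

theorem sum_fin1 {α : Type} [Fintype α] {M : Type} [AddCommMonoid M] (f : (Fin 1 → α) → M) :
    ∑ κ, f κ = ∑ x, f (fun _ => x) :=
  (Equiv.sum_comp (Equiv.funUnique (Fin 1) α).symm f).symm

theorem sum_fin3 {α : Type} [Fintype α] {M : Type} [AddCommMonoid M] (f : (Fin 3 → α) → M) :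
    ∑ κ, f κ = ∑ x, ∑ y, ∑ z, f ![x, y, z] := by
  rw [← (Fin.consEquiv (fun _ : Fin 3 => α)).sum_comp, Fintype.sum_prod_type]
  refine Finset.sum_congr rfl fun x _ => ?_
  rw [← (Fin.consEquiv (fun _ : Fin 2 => α)).sum_comp, Fintype.sum_prod_type]
  refine Finset.sum_congr rfl fun y _ => ?_
  rw [← (Fin.consEquiv (fun _ : Fin 1 => α)).sum_comp, Fintype.sum_prod_type]
  refine Finset.sum_congr rfl fun z _ => ?_
  rw [Fintype.sum_unique]
  congr 1

theorem T_one (ha : Sy a) (x : Fin 3 → Fin n) :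
    T (v := 1) (sys b L a hb).r hp (fun _ => (sys b L a hb).c) (fun _ _ => 0) (fun _ => 0) x =
      F L (a (x 0, x 1, x 2)) := by
  unfold T
  rw [sum_fin1, ← pol b L a hb ha]
  refine Finset.sum_congr rfl fun k _ => ?_
  unfold W
  simp [Fin.prod_univ_three]

theorem V2_eq (ha : Sy a) : V2 (sys b L a hb) = V L a := by
  have h := inner_c (sys b L a hb).r (sys b L a hb).hs hp (hh_sys b L a hb) (sys b L a hb).c
    (v := 1) (v' := 1) (fun _ _ => 0) (fun _ _ => 0) (fun _ : Fin 3 => 0) (fun _ : Fin 3 => 0)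
    P3V2.m3 (Equiv.refl _) (by decide)
  unfold V2
  rw [← h]
  simp only [T_one b L a hb ha]
  rw [sum_fin3]
  unfold V
  rw [Fintype.sum_prod_type]
  refine Finset.sum_congr rfl fun x _ => ?_
  rw [Fintype.sum_prod_type]
  refine Finset.sum_congr rfl fun y _ => Finset.sum_congr rfl fun z _ => ?_
  rw [pow_two]
  rfl

theorem Cvx_sys (hL : L.Nodup) (b' : β) :
    Cvx b' (1944 * R4 (sys b L a hb) + 1296 * K4 (sys b L a hb)) := by
  refine Cvx_k4 (sys b L a hb).r b' ?_ (sys b L a hb).hs hp (hh_sys b L a hb) _ ?_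
  · intro i x y
    show pderiv (b', i) (∑ j, C (hv x j) * C (hv y j)) = 0
    rw [map_sum]
    refine Finset.sum_eq_zero fun j _ => ?_
    rw [← C_mul, pderiv_C]
  · intro w k
    show Hs b' w (C (sg k.2.1 * sg k.2.2 / 24) * F L (a k.1)) = 0
    rw [Hs_const_mul b' w _ _ (fun i => pderiv_C), Hs_F b' L _ hL, mul_zero]

/-- lower bound for the sixth cumulant -/
theorem kappa_CF (hL : L.Nodup) (ha : Sy a) :
    3240 * kap L a + 174960 * Ex (R6 (sys b L a hb)) ≤
      Ex (CF b L a ^ 6) - 15 * Ex (CF b L a ^ 2) * Ex (CF b L a ^ 4)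
      - 10 * Ex (CF b L a ^ 3) ^ 2 + 30 * Ex (CF b L a ^ 2) ^ 3 := by
  obtain ⟨m2, m3, m4, m6⟩ := moments3 (sys b L a hb)
  have hge := six_ge (sys b L a hb) hp (hh_sys b L a hb) (fun P => Ex_sq_nonneg P)
  have hE : (sys b L a hb).E = Ex := rfl
  rw [XX_eq, hE, V2_eq b L a hb ha] at m2 m4 m6
  rw [XX_eq, hE] at m3
  rw [hE] at hge
  have hc := corr L (Fin n × Fin n × Fin n) a
    (1944 * R4 (sys b L a hb) + 1296 * K4 (sys b L a hb)) hL
    (fun b' _ => Cvx_sys b L a hb hL b')
  rw [m2, m3, m4, m6]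
  unfold kap
  nlinarith [hc, hge]

end Pool.Agent.Y974.K3
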