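import Pool.Agent.Y974.K3.Net

/-!
# Networks with open legs and their inner products
-/

set_option autoImplicit false
set_option linter.unusedSectionVars false

namespace Pool.Agent.Y974.K3

open Finset

variable {R : Type} [CommRing R] {K : Type} [Fintype K] {n v v' L : ℕ}

/-- a network with `L` open legs, leg `l` sits at the vertex `φ l` -/
def T (r : K → K → R) (h : K → Fin n → R) (w : Fin v → K → R) (m : Fin v → Fin v → ℕ)
    (φ : Fin L → Fin v) (a : Fin L → Fin n) : R :=
  ∑ κ : Fin v → K, (W r m κ * ∏ i, w i (κ i)) * ∏ l, h (κ (φ l)) (a l)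

/-- the network obtained by gluing the legs -/
def glue (m : Fin v → Fin v → ℕ) (m' : Fin v' → Fin v' → ℕ) (φ : Fin L → Fin v)
    (φ' : Fin L → Fin v') : Fin (v + v') → Fin (v + v') → ℕ :=
  Fin.append
    (fun i => Fin.append (m i) (fun j => (Finset.univ.filter fun l => φ l = i ∧ φ' l = j).card))
    (fun i => Fin.append (fun _ => 0) (m' i))

theorem prod_legs (φ : Fin L → Fin v) (φ' : Fin L → Fin v') (f : Fin v → Fin v' → R) :
    ∏ i, ∏ j, f i j ^ (Finset.univ.filter fun l => φ l = i ∧ φ' l = j).card =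
      ∏ l, f (φ l) (φ' l) := by
  have e : ∀ i j, f i j ^ (Finset.univ.filter fun l => φ l = i ∧ φ' l = j).card =
      ∏ l, if φ l = i ∧ φ' l = j then f i j else 1 := by
    intro i j
    rw [Finset.prod_ite, Finset.prod_const, Finset.prod_const_one, mul_one]
  simp only [e]
  have e2 : ∀ i, ∏ j, ∏ l, (if φ l = i ∧ φ' l = j then f i j else 1) =
      ∏ l, ∏ j, (if φ l = i ∧ φ' l = j then f i j else 1) := fun i => Finset.prod_comm
  simp only [e2]
  rw [Finset.prod_comm]
  refine Finset.prod_congr rfl fun l _ => ?_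
  rw [Finset.prod_eq_single (φ l), Finset.prod_eq_single (φ' l)]
  · simp
  · intro b _ hb; rw [if_neg (fun h => hb h.2.symm)]
  · intro h; exact absurd (Finset.mem_univ _) h
  · intro b _ hb
    exact Finset.prod_eq_one fun j _ => by rw [if_neg (fun h => hb h.1.symm)]
  · intro h; exact absurd (Finset.mem_univ _) h

theorem W_glue (r : K → K → R) (m : Fin v → Fin v → ℕ) (m' : Fin v' → Fin v' → ℕ)
    (φ : Fin L → Fin v) (φ' : Fin L → Fin v') (κ : Fin v → K) (κ' : Fin v' → K) :
    W r (glue m m' φ φ') (Fin.append κ κ') =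
      W r m κ * W r m' κ' * ∏ l, r (κ (φ l)) (κ' (φ' l)) := by
  unfold W glue
  rw [Fin.prod_univ_add]
  have e1 : ∀ i : Fin v, ∏ j : Fin (v + v'), r (Fin.append κ κ' (Fin.castAdd v' i))
      (Fin.append κ κ' j) ^ Fin.append
        (fun i => Fin.append (m i) (fun j => (Finset.univ.filter fun l => φ l = i ∧ φ' l = j).card))
        (fun i => Fin.append (fun _ => 0) (m' i)) (Fin.castAdd v' i) j =
      (∏ j, r (κ i) (κ j) ^ m i j) *
        ∏ j, r (κ i) (κ' j) ^ (Finset.univ.filter fun l => φ l = i ∧ φ' l = j).card := by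
    intro i
    rw [Fin.prod_univ_add]
    simp only [Fin.append_left, Fin.append_right]
  have e2 : ∀ i : Fin v', ∏ j : Fin (v + v'), r (Fin.append κ κ' (Fin.natAdd v i))
      (Fin.append κ κ' j) ^ Fin.append
        (fun i => Fin.append (m i) (fun j => (Finset.univ.filter fun l => φ l = i ∧ φ' l = j).card))
        (fun i => Fin.append (fun _ => 0) (m' i)) (Fin.natAdd v i) j =
      ∏ j, r (κ' i) (κ' j) ^ m' i j := by
    intro i
    rw [Fin.prod_univ_add]
    simp only [Fin.append_left, Fin.append_right, pow_zero, Finset.prod_const_one, one_mul]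
  simp only [e1, e2, Finset.prod_mul_distrib]
  rw [prod_legs φ φ' (fun i j => r (κ i) (κ' j))]
  ring

/-- the inner product of two open networks is the glued network -/
theorem inner (r : K → K → R) (h : K → Fin n → R) (hh : ∀ a b, r a b = ∑ j, h a j * h b j)
    (w : Fin v → K → R) (w' : Fin v' → K → R) (m : Fin v → Fin v → ℕ)
    (m' : Fin v' → Fin v' → ℕ) (φ : Fin L → Fin v) (φ' : Fin L → Fin v') :
    ∑ a, T r h w m φ a * T r h w' m' φ' a =
      Y r (Fin.append w w') (glue m m' φ φ') := by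
  have e1 : ∀ (κ : Fin v → K) (κ' : Fin v' → K), ∏ l, r (κ (φ l)) (κ' (φ' l)) =
      ∑ a : Fin L → Fin n, (∏ l, h (κ (φ l)) (a l)) * ∏ l, h (κ' (φ' l)) (a l) := by
    intro κ κ'
    have h1 := Finset.prod_univ_sum (fun _ : Fin L => (Finset.univ : Finset (Fin n)))
      (fun l j => h (κ (φ l)) j * h (κ' (φ' l)) j)
    rw [Fintype.piFinset_univ] at h1
    simp only [hh]
    rw [h1]
    exact Finset.sum_congr rfl fun a _ => Finset.prod_mul_distrib
  unfold Y T
  rw [← Equiv.sum_comp (Fin.appendEquiv v v'), Fintype.sum_prod_type]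
  simp only [Finset.sum_mul_sum]
  rw [Finset.sum_comm]
  refine Finset.sum_congr rfl fun κ _ => ?_
  rw [Finset.sum_comm]
  refine Finset.sum_congr rfl fun κ' _ => ?_
  have e2 : (Fin.appendEquiv v v') (κ, κ') = Fin.append κ κ' := rfl
  rw [e2, W_glue, e1, Fin.prod_univ_add]
  simp only [Fin.append_left, Fin.append_right]
  rw [Finset.mul_sum, Finset.sum_mul]
  refine Finset.sum_congr rfl fun a _ => ?_
  ring

/-- products of closed networks -/
theorem Y_mul (r : K → K → R) (w : Fin v → K → R) (w' : Fin v' → K → R) (m : Fin v → Fin v → ℕ)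
    (m' : Fin v' → Fin v' → ℕ) :
    Y r w m * Y r w' m' = Y r (Fin.append w w') (glue m m' (Fin.elim0) (Fin.elim0)) := by
  classical
  unfold Y
  rw [← Equiv.sum_comp (Fin.appendEquiv v v') , Fintype.sum_prod_type, Finset.sum_mul_sum]
  refine Finset.sum_congr rfl fun κ _ => Finset.sum_congr rfl fun κ' _ => ?_
  have e2 : (Fin.appendEquiv v v') (κ, κ') = Fin.append κ κ' := rfl
  rw [e2, W_glue, Fin.prod_univ_add]
  simp only [Fin.append_left, Fin.append_right, Finset.univ_eq_empty, Finset.prod_empty, mul_one]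
  ring

end Pool.Agent.Y974.K3
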