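import Pool.Agent.Y974.K3.R6

/-!
# Convexity of the trace of the cube
-/

set_option autoImplicit false
set_option linter.unusedSectionVars false
set_option linter.unusedSimpArgs false

namespace Pool.Agent.Y974.K3

open Finset MvPolynomial Pool.Agent.TH722.K6

variable {β : Type} [Fintype β] [DecidableEq β] {n : ℕ}

/-- orthogonality of the monomials -/
theorem Ex_FF : ∀ (L : List β) (a a' : List (Fin n) → ℝ), L.Nodup →
    Ex (F L a * F L a') = ∑ J : Fin L.length → Fin n, a (List.ofFn J) * a' (List.ofFn J)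
  | [], a, a', _ => by
    rw [F_nil, F_nil, ← C_mul, Ex_C]
    show _ = ∑ J : Fin 0 → Fin n, _
    rw [Fintype.sum_unique]
    simp
  | b :: L, a, a', h => by
    rw [List.nodup_cons] at h
    rw [stein_F b L a h.1, Dw_F b L a' h.1, map_sum]
    show _ = ∑ J : Fin (L.length + 1) → Fin n, _
    rw [← (Fin.consEquiv (fun _ : Fin (L.length + 1) => Fin n)).sum_comp,
      Fintype.sum_prod_type]
    refine Finset.sum_congr rfl fun i _ => ?_
    rw [Ex_FF L _ _ h.2]
    refine Finset.sum_congr rfl fun J _ => ?_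
    simp [Fin.consEquiv, List.ofFn_succ, sl]

section cvx
variable {γ γ' : Type} [Fintype γ] [Fintype γ']

theorem tr3_eq_trace (M : Matrix (Fin n) (Fin n) ℝ) : tr3 M = (M * M * M).trace := by
  unfold tr3 Matrix.trace
  simp only [Matrix.diag_apply, Matrix.mul_apply, Finset.sum_mul]
  refine Finset.sum_congr rfl fun i _ => ?_
  rw [Finset.sum_comm]

theorem Mm_eq_mul (y : γ → Fin n → ℝ) : (Matrix.of (Mm y)) = (Matrix.of y).transpose *
    (Matrix.of y) := by
  ext i j
  simp [Mm, Matrix.mul_apply]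

theorem trace_sand (D : Matrix (Fin n) (Fin n) ℝ) (hD : D.transpose = D) (y : γ → Fin n → ℝ) :
    0 ≤ (D * Matrix.of (Mm y) * D).trace := by
  rw [Mm_eq_mul]
  have e : D * ((Matrix.of y).transpose * (Matrix.of y)) * D =
      (Matrix.of y * D).transpose * (Matrix.of y * D) := by
    rw [Matrix.transpose_mul, hD]
    simp only [Matrix.mul_assoc]
  rw [e]
  unfold Matrix.trace
  refine Finset.sum_nonneg fun i _ => ?_
  rw [Matrix.diag_apply, Matrix.mul_apply]
  exact Finset.sum_nonneg fun j _ => mul_self_nonneg _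

theorem Mm_transpose (y : γ → Fin n → ℝ) : (Matrix.of (Mm y)).transpose = Matrix.of (Mm y) := by
  ext i j
  simp [Mm, mul_comm]

theorem tr3_cvx (y : γ → Fin n → ℝ) (z : γ' → Fin n → ℝ) :
    3 * ∑ i, ∑ j, ∑ k, Mm z i j * Mm z j k * Mm y k i ≤ tr3 (Mm y) + 2 * tr3 (Mm z) := by
  have e1 : ∑ i, ∑ j, ∑ k, Mm z i j * Mm z j k * Mm y k i =
      (Matrix.of (Mm z) * Matrix.of (Mm z) * Matrix.of (Mm y)).trace := by
    unfold Matrix.trace
    simp only [Matrix.diag_apply, Matrix.mul_apply, Finset.sum_mul, Matrix.of_apply]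
    refine Finset.sum_congr rfl fun i _ => ?_
    rw [Finset.sum_comm]
  have e2 := tr3_eq_trace (Matrix.of (Mm y))
  have e3 := tr3_eq_trace (Matrix.of (Mm z))
  have hA := Mm_transpose y
  have hM := Mm_transpose z
  have hD : (Matrix.of (Mm y) - Matrix.of (Mm z)).transpose =
      Matrix.of (Mm y) - Matrix.of (Mm z) := by
    rw [Matrix.transpose_sub, hA, hM]
  have s1 := trace_sand _ hD y
  have s2 := trace_sand _ hD z
  rw [e1]
  change _ ≤ tr3 (Matrix.of (Mm y)) + 2 * tr3 (Matrix.of (Mm z))
  rw [e2, e3]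
  generalize Matrix.of (Mm y) = A at *
  generalize Matrix.of (Mm z) = M at *
  have i1 : ((A - M) * A * (A - M)).trace = (A * A * A).trace - 2 * (M * A * A).trace +
      (M * M * A).trace := by
    have : (A - M) * A * (A - M) = A * A * A - A * A * M - M * A * A + M * A * M := by
      noncomm_ring
    rw [this, Matrix.trace_add, Matrix.trace_sub, Matrix.trace_sub,
      Matrix.trace_mul_comm (A * A) M, Matrix.trace_mul_comm (M * A) M]
    simp only [← Matrix.mul_assoc]
    ring
  have i2 : ((A - M) * M * (A - M)).trace = (M * A * A).trace - 2 * (M * M * A).trace +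
      (M * M * M).trace := by
    have : (A - M) * M * (A - M) = A * M * A - A * M * M - M * M * A + M * M * M := by
      noncomm_ring
    rw [this, Matrix.trace_add, Matrix.trace_sub, Matrix.trace_sub]
    have j1 : (A * M * A).trace = (M * A * A).trace := by
      rw [Matrix.mul_assoc, Matrix.trace_mul_comm]
    have j2 : (A * M * M).trace = (M * M * A).trace := by
      rw [Matrix.mul_assoc, Matrix.trace_mul_comm]
    rw [j1, j2]
    ring
  rw [i1] at s1
  rw [i2] at s2
  linarith

end cvx

variable (b : β) (L : List β) (a : Fin n × Fin n × Fin n → List (Fin n) → ℝ) (hb : b ∉ L)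

theorem Ex_nonneg (P : MvPolynomial (β × Fin n) ℝ) (h : ∀ g, 0 ≤ MvPolynomial.eval g P) :
    0 ≤ Ex P := by
  rw [Ex_apply]
  exact MeasureTheory.integral_nonneg h

/-- the family indexed by everything but the first of the three indices -/
def Zf (L : List β) (a : Fin n × Fin n × Fin n → List (Fin n) → ℝ)
    (s : (Fin n × Fin n) × (Fin L.length → Fin n)) (i : Fin n) : ℝ :=
  a (i, s.1.1, s.1.2) (List.ofFn s.2)

theorem Ex_R6_ge (hL : L.Nodup) (ha : Sy a) :
    tr3 (Mm (Zf L a)) ≤ Ex (R6 (sys b L a hb)) := by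
  set G : MvPolynomial (β × Fin n) ℝ := ∑ i, ∑ j, ∑ k, C (Mm (Zf L a) i j * Mm (Zf L a) j k) *
    ∑ s : Fin n × Fin n, F L (a (k, s.1, s.2)) * F L (a (i, s.1, s.2)) with hG
  have hEG : Ex G = tr3 (Mm (Zf L a)) := by
    rw [hG]
    unfold tr3
    simp only [map_sum]
    refine Finset.sum_congr rfl fun i _ => Finset.sum_congr rfl fun j _ =>
      Finset.sum_congr rfl fun k _ => ?_
    rw [Ex_C_mul, map_sum]
    have e : ∑ s : Fin n × Fin n, Ex (F L (a (k, s.1, s.2)) * F L (a (i, s.1, s.2))) =
        Mm (Zf L a) k i := by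
      unfold Mm
      rw [Fintype.sum_prod_type (f := fun s : (Fin n × Fin n) × (Fin L.length → Fin n) =>
        Zf L a s k * Zf L a s i)]
      refine Finset.sum_congr rfl fun s _ => ?_
      rw [Ex_FF L _ _ hL]
      rfl
    rw [e]
  have hpos := Ex_nonneg (R6 (sys b L a hb) + C (2 * tr3 (Mm (Zf L a))) - C 3 * G) (by
    intro g
    have h := tr3_cvx (fun (s : Fin n × Fin n) i => MvPolynomial.eval g (F L (a (i, s.1, s.2))))
      (Zf L a)
    have hR : MvPolynomial.eval g (R6 (sys b L a hb)) =
        tr3 (Mm (fun (s : Fin n × Fin n) i => MvPolynomial.eval g (F L (a (i, s.1, s.2))))) := by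
      rw [R6_eq b L a hb ha, tr3_Mm_eq]
      simp only [map_sum, map_mul, map_pow]
      refine Finset.sum_congr rfl fun i _ => ?_
      rw [Fintype.sum_prod_type]
      refine Finset.sum_congr rfl fun j _ => Finset.sum_congr rfl fun k _ => ?_
      congr 1
      refine Finset.sum_congr rfl fun d _ => ?_
      unfold Mm
      rw [Fintype.sum_prod_type]
    have hGg : MvPolynomial.eval g G = ∑ i, ∑ j, ∑ k, Mm (Zf L a) i j * Mm (Zf L a) j k *
        Mm (fun (s : Fin n × Fin n) i => MvPolynomial.eval g (F L (a (i, s.1, s.2)))) k i := by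
      rw [hG]
      simp only [map_sum, map_mul, eval_C]
      rfl
    have e0 : MvPolynomial.eval g (R6 (sys b L a hb) + C (2 * tr3 (Mm (Zf L a))) - C 3 * G) =
        MvPolynomial.eval g (R6 (sys b L a hb)) + 2 * tr3 (Mm (Zf L a)) -
          3 * MvPolynomial.eval g G := by
      rw [map_sub, map_add, map_mul (MvPolynomial.eval g), eval_C, eval_C]
    rw [e0, hR, hGg]
    linarith)
  rw [map_sub, map_add, Ex_C, Ex_C_mul, hEG] at hpos
  linarith

end Pool.Agent.Y974.K3
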