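import Mathlib

/-!
# Joint moments of Hermite polynomials of linear forms: networks and integration by parts
-/

set_option autoImplicit false
set_option linter.unusedSectionVars false

namespace Pool.Agent.Y974.K3

open Finset

variable {R : Type} [CommRing R] [Algebra ℝ R]

/-- derivations on finite products -/
theorem deriv_prod {ι : Type} [DecidableEq ι] (D : Derivation ℝ R R) (s : Finset ι) (f : ι → R) :
    D (∏ i ∈ s, f i) = ∑ i ∈ s, (∏ j ∈ s.erase i, f j) * D (f i) := by
  induction s using Finset.induction_on with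
  | empty => simp
  | insert a s ha ih =>
    rw [Finset.prod_insert ha, Derivation.leibniz, ih, Finset.sum_insert ha,
      Finset.erase_insert ha]
    simp only [smul_eq_mul]
    rw [add_comm]
    congr 1
    rw [Finset.mul_sum]
    refine Finset.sum_congr rfl fun i hi => ?_
    have hne : a ≠ i := fun h => ha (h ▸ hi)
    rw [Finset.erase_insert_of_ne hne, Finset.prod_insert (fun h => ha (Finset.mem_of_mem_erase h))]
    ring

variable {K : Type}

/-- Hermite polynomials of the forms `l k` -/
def H (l : K → R) (r : K → K → R) (k : K) : ℕ → R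
  | 0 => 1
  | 1 => l k
  | (d + 2) => l k * H l r k (d + 1) - (d + 1 : ℕ) * r k k * H l r k d

theorem H_zero (l : K → R) (r : K → K → R) (k : K) : H l r k 0 = 1 := rfl
theorem H_one (l : K → R) (r : K → K → R) (k : K) : H l r k 1 = l k := rfl
theorem H_two (l : K → R) (r : K → K → R) (k : K) (d : ℕ) :
    H l r k (d + 2) = l k * H l r k (d + 1) - (d + 1 : ℕ) * r k k * H l r k d := rfl

section herm

variable (l : K → R) (D : K → Derivation ℝ R R) (r : K → K → R)
  (hl : ∀ k k', D k (l k') = r k k') (hr : ∀ k a b, D k (r a b) = 0)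

include hl hr in
theorem D_H (k k' : K) : ∀ d : ℕ, D k (H l r k' (d + 1)) = (d + 1 : ℕ) * r k k' * H l r k' d
  | 0 => by rw [zero_add, H_one, hl, H_zero]; simp
  | 1 => by
    rw [H_two, H_one, H_zero, map_sub, Derivation.leibniz, Derivation.leibniz, hl]
    simp only [smul_eq_mul, Derivation.leibniz, hr, Derivation.map_natCast,
      Derivation.map_one_eq_zero]
    push_cast
    ring
  | (d + 2) => by
    rw [H_two, map_sub, Derivation.leibniz, hl, D_H k k' (d + 1), Derivation.leibniz,
      D_H k k' d, Derivation.leibniz, hr, Derivation.map_natCast]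
    have h := H_two l r k' d
    simp only [smul_eq_mul, smul_zero, mul_zero, zero_add, add_zero]
    rw [h]
    push_cast
    ring

include hl hr in
theorem H_succ (k : K) : ∀ d : ℕ, H l r k (d + 1) = l k * H l r k d - D k (H l r k d)
  | 0 => by rw [zero_add, H_one, H_zero]; simp
  | (d + 1) => by rw [H_two, D_H l D r hl hr k k d]

include hl hr in
theorem stein_H (E : R →ₗ[ℝ] ℝ) (hE : ∀ k P, E (l k * P) = E (D k P)) (k : K) (d : ℕ) (P : R) :
    E (H l r k (d + 1) * P) = E (H l r k d * D k P) := by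
  have e : H l r k (d + 1) * P = l k * (H l r k d * P) - D k (H l r k d) * P := by
    rw [H_succ l D r hl hr k d]; ring
  rw [e, map_sub, hE, Derivation.leibniz, ← map_sub]
  congr 1
  simp only [smul_eq_mul]
  ring

end herm

section net

variable [Fintype K] {V : ℕ}

/-- the weight of a network -/
def W (r : K → K → R) (m : Fin V → Fin V → ℕ) (κ : Fin V → K) : R :=
  ∏ i, ∏ j, r (κ i) (κ j) ^ m i j

/-- the value of a closed network with weights `w` at the vertices -/
def Y (r : K → K → R) (w : Fin V → K → R) (m : Fin V → Fin V → ℕ) : R :=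
  ∑ κ : Fin V → K, W r m κ * ∏ i, w i (κ i)

/-- the value of a network with free legs -/
def Z (l : K → R) (r : K → K → R) (c : K → R) (m : Fin V → Fin V → ℕ) (d : Fin V → ℕ) : R :=
  ∑ κ : Fin V → K, W r m κ * ((∏ i, c (κ i)) * ∏ i, H l r (κ i) (d i))

theorem Z_zero (l : K → R) (r : K → K → R) (c : K → R) (m : Fin V → Fin V → ℕ) (d : Fin V → ℕ)
    (hd : ∀ i, d i = 0) : Z l r c m d = Y r (fun _ => c) m := by
  unfold Z Y
  refine Finset.sum_congr rfl fun κ _ => ?_
  simp [hd, H_zero]

theorem W_sym (r : K → K → R) (hs : ∀ a b, r a b = r b a) (m : Fin V → Fin V → ℕ)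
    (κ : Fin V → K) :
    W r m κ = ∏ i, ∏ j, (if i < j then r (κ i) (κ j) ^ (m i j + m j i)
      else if i = j then r (κ i) (κ j) ^ m i j else 1) := by
  unfold W
  have e1 : ∀ i j, r (κ i) (κ j) ^ m i j =
      (if i < j then r (κ i) (κ j) ^ m i j else if i = j then r (κ i) (κ j) ^ m i j else 1) *
      (if j < i then r (κ i) (κ j) ^ m i j else 1) := by
    intro i j
    rcases lt_trichotomy i j with h | h | h
    · rw [if_pos h, if_neg (not_lt.2 h.le), mul_one]
    · subst h; simp
    · rw [if_neg (not_lt.2 h.le), if_neg (ne_of_gt h), if_pos h, one_mul]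
  have e2 : ∏ i, ∏ j, (if j < i then r (κ i) (κ j) ^ m i j else 1) =
      ∏ i, ∏ j, (if i < j then r (κ i) (κ j) ^ m j i else 1) := by
    rw [Finset.prod_comm]
    refine Finset.prod_congr rfl fun i _ => Finset.prod_congr rfl fun j _ => ?_
    rw [hs (κ j) (κ i)]
  rw [Finset.prod_congr rfl fun i _ => Finset.prod_congr rfl fun j _ => e1 i j]
  simp only [Finset.prod_mul_distrib]
  rw [e2]
  simp only [← Finset.prod_mul_distrib]
  refine Finset.prod_congr rfl fun i _ => Finset.prod_congr rfl fun j _ => ?_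
  rcases lt_trichotomy i j with h | h | h
  · rw [if_pos h, if_pos h, if_pos h, pow_add]
  · subst h; simp
  · rw [if_neg (not_lt.2 h.le), if_neg (not_lt.2 h.le), if_neg (not_lt.2 h.le), mul_one]

theorem W_congr (r : K → K → R) (hs : ∀ a b, r a b = r b a) (m m' : Fin V → Fin V → ℕ)
    (h : ∀ i j, m i j + m j i = m' i j + m' j i) (κ : Fin V → K) : W r m κ = W r m' κ := by
  rw [W_sym r hs, W_sym r hs]
  refine Finset.prod_congr rfl fun i _ => Finset.prod_congr rfl fun j _ => ?_
  by_cases h1 : i < j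
  · rw [if_pos h1, if_pos h1, h]
  · rw [if_neg h1, if_neg h1]
    by_cases h2 : i = j
    · subst h2
      have := h i i
      rw [if_pos rfl, if_pos rfl]
      congr 1
      omega
    · rw [if_neg h2, if_neg h2]

theorem W_perm (r : K → K → R) (m : Fin V → Fin V → ℕ) (σ : Equiv.Perm (Fin V)) (κ : Fin V → K) :
    W r (fun i j => m (σ i) (σ j)) (fun i => κ (σ i)) = W r m κ := by
  unfold W
  rw [← Equiv.prod_comp σ (fun i => ∏ j, r (κ i) (κ j) ^ m i j)]
  refine Finset.prod_congr rfl fun i _ => ?_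
  exact Equiv.prod_comp σ (fun j => r (κ (σ i)) (κ j) ^ m (σ i) j)

/-- relabelling of closed networks -/
theorem Y_rel (r : K → K → R) (hs : ∀ a b, r a b = r b a) (w w' : Fin V → K → R)
    (m m' : Fin V → Fin V → ℕ) (σ : Equiv.Perm (Fin V))
    (hm : ∀ i j, m' i j + m' j i = m (σ i) (σ j) + m (σ j) (σ i))
    (hw : ∀ i, w' i = w (σ i)) : Y r w' m' = Y r w m := by
  unfold Y
  rw [← Equiv.sum_comp (Equiv.arrowCongr σ.symm (Equiv.refl K))]
  refine Finset.sum_congr rfl fun κ _ => ?_
  have e : ∀ i, (Equiv.arrowCongr σ.symm (Equiv.refl K)) κ i = κ (σ i) := fun i => by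
    simp [Equiv.arrowCongr]
  have e' : (Equiv.arrowCongr σ.symm (Equiv.refl K)) κ = fun i => κ (σ i) := funext e
  rw [e', W_congr r hs m' (fun i j => m (σ i) (σ j)) hm, W_perm]
  congr 1
  simp only [hw]
  exact Equiv.prod_comp σ (fun i => w i (κ i))

/-- relabelling of networks -/
theorem Z_rel (l : K → R) (r : K → K → R) (hs : ∀ a b, r a b = r b a) (c : K → R)
    (m m' : Fin V → Fin V → ℕ) (d d' : Fin V → ℕ) (σ : Equiv.Perm (Fin V))
    (hm : ∀ i j, m' i j + m' j i = m (σ i) (σ j) + m (σ j) (σ i))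
    (hd : ∀ i, d' i = d (σ i)) : Z l r c m' d' = Z l r c m d := by
  unfold Z
  rw [← Equiv.sum_comp (Equiv.arrowCongr σ.symm (Equiv.refl K))]
  refine Finset.sum_congr rfl fun κ _ => ?_
  have e : ∀ i, (Equiv.arrowCongr σ.symm (Equiv.refl K)) κ i = κ (σ i) := fun i => by
    simp [Equiv.arrowCongr]
  have e' : (Equiv.arrowCongr σ.symm (Equiv.refl K)) κ = fun i => κ (σ i) := funext e
  rw [e', W_congr r hs m' (fun i j => m (σ i) (σ j)) hm, W_perm]
  congr 1
  simp only [hd]
  congr 1
  · exact Equiv.prod_comp σ (fun i => c (κ i))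
  · exact Equiv.prod_comp σ (fun i => H l r (κ i) (d i))

/-- add an edge -/
def bump (m : Fin V → Fin V → ℕ) (v j : Fin V) : Fin V → Fin V → ℕ :=
  fun a b => m a b + if a = v ∧ b = j then 1 else 0

/-- remove a leg at `v` and at `j` -/
def dec (d : Fin V → ℕ) (v j : Fin V) : Fin V → ℕ :=
  fun a => if a = v then d a - 1 else if a = j then d a - 1 else d a

theorem W_bump (r : K → K → R) (m : Fin V → Fin V → ℕ) (v j : Fin V) (κ : Fin V → K) :
    W r (bump m v j) κ = W r m κ * r (κ v) (κ j) := by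
  unfold W bump
  simp only [pow_add, Finset.prod_mul_distrib]
  congr 1
  rw [Finset.prod_eq_single v, Finset.prod_eq_single j]
  · simp
  · intro b _ hb; rw [if_neg (fun h => hb h.2), pow_zero]
  · intro h; exact absurd (Finset.mem_univ _) h
  · intro b _ hb
    exact Finset.prod_eq_one fun i _ => by rw [if_neg (fun h => hb h.1), pow_zero]
  · intro h; exact absurd (Finset.mem_univ _) h

end net

section step

variable [Fintype K] {V : ℕ} (l : K → R) (D : K → Derivation ℝ R R) (r : K → K → R)
  (hl : ∀ k k', D k (l k') = r k k') (hr : ∀ k a b, D k (r a b) = 0)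
  (E : R →ₗ[ℝ] ℝ) (hE : ∀ k P, E (l k * P) = E (D k P)) (c : K → R)
  (hc : ∀ k k', D k (c k') = 0)

include hl hr hE hc in
/-- integration by parts at the vertex `v` -/
theorem Z_step (Q : R) (hQ : ∀ k, D k Q = 0) (m : Fin V → Fin V → ℕ) (d : Fin V → ℕ) (v : Fin V)
    (hv : d v ≠ 0) :
    E (Q * Z l r c m d) =
      ∑ j, (if j = v then 0 else (d j : ℝ)) * E (Q * Z l r c (bump m v j) (dec d v j)) := by
  obtain ⟨e, he⟩ : ∃ e, d v = e + 1 := ⟨d v - 1, by omega⟩
  have key : ∀ κ : Fin V → K, E (Q * (W r m κ * ((∏ i, c (κ i)) * ∏ i, H l r (κ i) (d i)))) =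
      ∑ j, (if j = v then 0 else (d j : ℝ)) * E (Q * (W r (bump m v j) κ *
        ((∏ i, c (κ i)) * ∏ i, H l r (κ i) (dec d v j i)))) := by
    intro κ
    have dW : ∀ k, D k (W r m κ) = 0 := by
      intro k
      unfold W
      rw [deriv_prod]
      refine Finset.sum_eq_zero fun i _ => ?_
      rw [deriv_prod, Finset.sum_eq_zero, mul_zero]
      intro j _
      rw [Derivation.leibniz_pow, hr]; simp
    have dC : ∀ k, D k (∏ i, c (κ i)) = 0 := by
      intro k
      rw [deriv_prod]
      exact Finset.sum_eq_zero fun i _ => by rw [hc, mul_zero]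
    have e1 : Q * (W r m κ * ((∏ i, c (κ i)) * ∏ i, H l r (κ i) (d i))) =
        H l r (κ v) (e + 1) * ((Q * W r m κ * ∏ i, c (κ i)) *
          ∏ i ∈ Finset.univ.erase v, H l r (κ i) (d i)) := by
      rw [← Finset.mul_prod_erase Finset.univ (fun i => H l r (κ i) (d i)) (Finset.mem_univ v),
        he]
      ring
    rw [e1, stein_H l D r hl hr E hE, Derivation.leibniz, deriv_prod]
    have dQ : D (κ v) (Q * W r m κ * ∏ i, c (κ i)) = 0 := by
      rw [Derivation.leibniz, dC, Derivation.leibniz, dW, hQ]; simp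
    rw [dQ, smul_zero, add_zero, smul_eq_mul, Finset.mul_sum, Finset.mul_sum, map_sum,
      ← Finset.add_sum_erase _ _ (Finset.mem_univ v), if_pos rfl, zero_mul, zero_add]
    refine Finset.sum_congr rfl fun j hj => ?_
    have hjv : j ≠ v := Finset.ne_of_mem_erase hj
    rw [if_neg hjv]
    rcases Nat.eq_zero_or_pos (d j) with h0 | h0
    · rw [h0, H_zero, Derivation.map_one_eq_zero]; simp
    · obtain ⟨f, hf⟩ : ∃ f, d j = f + 1 := ⟨d j - 1, by omega⟩
      rw [hf, D_H l D r hl hr, W_bump]
      have e2 : ∏ i, H l r (κ i) (dec d v j i) =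
          H l r (κ v) e * (H l r (κ j) f * ∏ i ∈ (Finset.univ.erase v).erase j,
            H l r (κ i) (d i)) := by
        rw [← Finset.mul_prod_erase _ _ (Finset.mem_univ v),
          ← Finset.mul_prod_erase _ _ (Finset.mem_erase.2 ⟨hjv, Finset.mem_univ j⟩)]
        have a1 : dec d v j v = e := by unfold dec; rw [if_pos rfl, he]; rfl
        have a2 : dec d v j j = f := by unfold dec; rw [if_neg hjv, if_pos rfl, hf]; rfl
        rw [a1, a2]
        congr 2
        refine Finset.prod_congr rfl fun i hi => ?_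
        have b1 : i ≠ j := Finset.ne_of_mem_erase hi
        have b2 : i ≠ v := Finset.ne_of_mem_erase (Finset.mem_of_mem_erase hi)
        unfold dec
        rw [if_neg b2, if_neg b1]
      rw [e2, ← smul_eq_mul (a := ((f + 1 : ℕ) : ℝ)), ← map_smul]
      congr 1
      rw [Algebra.smul_def, map_natCast]
      ring
  unfold Z
  simp only [Finset.mul_sum, map_sum, key]
  rw [Finset.sum_comm]

include hl hr hE hc in
/-- integration by parts followed by relabelling -/
theorem Z_step_rel (hs : ∀ a b, r a b = r b a) (Q : R) (hQ : ∀ k, D k Q = 0)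
    (m : Fin V → Fin V → ℕ) (d : Fin V → ℕ) (v : Fin V)
    (m' : Fin V → Fin V → Fin V → ℕ) (d' : Fin V → Fin V → ℕ) (σ : Fin V → Equiv.Perm (Fin V))
    (hv : d v ≠ 0)
    (h : ∀ j, j = v ∨ d j = 0 ∨ ((∀ a b, bump m v j a b + bump m v j b a =
      m' j (σ j a) (σ j b) + m' j (σ j b) (σ j a)) ∧ ∀ a, dec d v j a = d' j (σ j a))) :
    E (Q * Z l r c m d) =
      ∑ j, (if j = v then 0 else (d j : ℝ)) * E (Q * Z l r c (m' j) (d' j)) := by
  rw [Z_step l D r hl hr E hE c hc Q hQ m d v hv]
  refine Finset.sum_congr rfl fun j _ => ?_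
  rcases h j with h | h | h
  · rw [if_pos h]; simp
  · rw [h]; simp
  · rw [Z_rel l r hs c (m' j) (bump m v j) (d' j) (dec d v j) (σ j) h.1 h.2]

end step

end Pool.Agent.Y974.K3
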