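import Pool.Agent.Y974.K3.Sys

/-!
# Moments of chaos elements: order 3, power 2 (generated)
-/

set_option autoImplicit false
set_option linter.unusedSectionVars false
set_option linter.unusedSimpArgs false
set_option maxRecDepth 4000

namespace Pool.Agent.Y974.K3.P3V2

open Finset

variable {R : Type} [CommRing R] [Algebra ℝ R] {K : Type} [Fintype K] (S : Sys R K)

def m0 : Fin 2 → Fin 2 → ℕ := ![![0, 0], ![0, 0]]
def d0 : Fin 2 → ℕ := ![3, 3]
def m1 : Fin 2 → Fin 2 → ℕ := ![![0, 1], ![0, 0]]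
def d1 : Fin 2 → ℕ := ![2, 2]
def m2 : Fin 2 → Fin 2 → ℕ := ![![0, 2], ![0, 0]]
def d2 : Fin 2 → ℕ := ![1, 1]
def m3 : Fin 2 → Fin 2 → ℕ := ![![0, 3], ![0, 0]]
def d3 : Fin 2 → ℕ := ![0, 0]

theorem s0 : EZ S m0 d0 = 3 * EZ S m1 d1 := by
  have h := EZ_step S m0 d0 0 ![m0, m1]
    ![d0, d1]
    ![Equiv.refl _, ⟨![0, 1], ![0, 1], by decide, by decide⟩] (by decide) (by decide)
  rw [h, Fin.sum_univ_two]
  simp [d0]
  try ring
theorem s1 : EZ S m1 d1 = 2 * EZ S m2 d2 := by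
  have h := EZ_step S m1 d1 0 ![m1, m2]
    ![d1, d2]
    ![Equiv.refl _, ⟨![0, 1], ![0, 1], by decide, by decide⟩] (by decide) (by decide)
  rw [h, Fin.sum_univ_two]
  simp [d1]
  try ring
theorem s2 : EZ S m2 d2 = 1 * EZ S m3 d3 := by
  have h := EZ_step S m2 d2 0 ![m2, m3]
    ![d2, d3]
    ![Equiv.refl _, ⟨![0, 1], ![0, 1], by decide, by decide⟩] (by decide) (by decide)
  rw [h, Fin.sum_univ_two]
  simp [d2]
  try ring

theorem z3 : EZ S m3 d3 = EY S m3 := EZ_zero S m3 d3 (by decide)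
theorem start : EZ (V := 2) S (fun _ _ => 0) (fun _ => 3) = EZ S m0 d0 := by
  congr 1
  · funext i j; fin_cases i <;> fin_cases j <;> rfl
  · funext i; fin_cases i <;> rfl
theorem total : EZ (V := 2) S (fun _ _ => 0) (fun _ => 3) = 6 * EY S m3 := by
  rw [start]
  simp only [← z3 S]
  linear_combination 1 * s0 S + 3 * s1 S + 6 * s2 S

end Pool.Agent.Y974.K3.P3V2
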