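import Pool.Agent.Y974.K3.Sys

/-!
# Moments of chaos elements: order 3, power 3 (generated)
-/

set_option autoImplicit false
set_option linter.unusedSectionVars false
set_option linter.unusedSimpArgs false
set_option maxRecDepth 4000

namespace Pool.Agent.Y974.K3.P3V3

open Finset

variable {R : Type} [CommRing R] [Algebra ℝ R] {K : Type} [Fintype K] (S : Sys R K)

def m0 : Fin 3 → Fin 3 → ℕ := ![![0, 0, 0], ![0, 0, 0], ![0, 0, 0]]
def d0 : Fin 3 → ℕ := ![3, 3, 3]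
def m1 : Fin 3 → Fin 3 → ℕ := ![![0, 0, 0], ![0, 0, 1], ![0, 0, 0]]
def d1 : Fin 3 → ℕ := ![3, 2, 2]
def m2 : Fin 3 → Fin 3 → ℕ := ![![0, 0, 1], ![0, 0, 1], ![0, 0, 0]]
def d2 : Fin 3 → ℕ := ![2, 2, 1]
def m3 : Fin 3 → Fin 3 → ℕ := ![![0, 0, 0], ![0, 0, 2], ![0, 0, 0]]
def d3 : Fin 3 → ℕ := ![3, 1, 1]
def m4 : Fin 3 → Fin 3 → ℕ := ![![0, 0, 1], ![0, 0, 2], ![0, 0, 0]]
def d4 : Fin 3 → ℕ := ![2, 1, 0]
def m5 : Fin 3 → Fin 3 → ℕ := ![![0, 0, 0], ![0, 0, 3], ![0, 0, 0]]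
def d5 : Fin 3 → ℕ := ![3, 0, 0]
def m6 : Fin 3 → Fin 3 → ℕ := ![![0, 1, 1], ![0, 0, 2], ![0, 0, 0]]
def d6 : Fin 3 → ℕ := ![1, 0, 0]

theorem s0 : EZ S m0 d0 = 6 * EZ S m1 d1 := by
  have h := EZ_step S m0 d0 0 ![m0, m1, m1]
    ![d0, d1, d1]
    ![Equiv.refl _, ⟨![1, 2, 0], ![2, 0, 1], by decide, by decide⟩, ⟨![1, 0, 2], ![1, 0, 2], by decide, by decide⟩] (by decide) (by decide)
  rw [h, Fin.sum_univ_three]
  simp [d0]
  try ring
theorem s1 : EZ S m1 d1 = 3 * EZ S m2 d2 + 2 * EZ S m3 d3 := by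
  have h := EZ_step S m1 d1 1 ![m2, m1, m3]
    ![d2, d1, d3]
    ![⟨![0, 2, 1], ![0, 2, 1], by decide, by decide⟩, Equiv.refl _, ⟨![0, 1, 2], ![0, 1, 2], by decide, by decide⟩] (by decide) (by decide)
  rw [h, Fin.sum_univ_three]
  simp [d1]
  try ring
theorem s2 : EZ S m2 d2 = 4 * EZ S m4 d4 := by
  have h := EZ_step S m2 d2 2 ![m4, m4, m2]
    ![d4, d4, d2]
    ![⟨![1, 0, 2], ![1, 0, 2], by decide, by decide⟩, ⟨![0, 1, 2], ![0, 1, 2], by decide, by decide⟩, Equiv.refl _] (by decide) (by decide)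
  rw [h, Fin.sum_univ_three]
  simp [d2]
  try ring
theorem s3 : EZ S m3 d3 = 3 * EZ S m4 d4 + 1 * EZ S m5 d5 := by
  have h := EZ_step S m3 d3 1 ![m4, m3, m5]
    ![d4, d3, d5]
    ![⟨![0, 2, 1], ![0, 2, 1], by decide, by decide⟩, Equiv.refl _, ⟨![0, 1, 2], ![0, 1, 2], by decide, by decide⟩] (by decide) (by decide)
  rw [h, Fin.sum_univ_three]
  simp [d3]
  try ring
theorem s4 : EZ S m4 d4 = 2 * EZ S m6 d6 := by
  have h := EZ_step S m4 d4 1 ![m6, m4, m4]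
    ![d6, d4, d4]
    ![⟨![0, 1, 2], ![0, 1, 2], by decide, by decide⟩, Equiv.refl _, Equiv.refl _] (by decide) (by decide)
  rw [h, Fin.sum_univ_three]
  simp [d4]
  try ring
theorem s5 : EZ S m5 d5 = 0 := by
  have h := EZ_step S m5 d5 0 ![m5, m5, m5]
    ![d5, d5, d5]
    ![Equiv.refl _, Equiv.refl _, Equiv.refl _] (by decide) (by decide)
  rw [h, Fin.sum_univ_three]
  simp [d5]
  try ring
theorem s6 : EZ S m6 d6 = 0 := by
  have h := EZ_step S m6 d6 0 ![m6, m6, m6]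
    ![d6, d6, d6]
    ![Equiv.refl _, Equiv.refl _, Equiv.refl _] (by decide) (by decide)
  rw [h, Fin.sum_univ_three]
  simp [d6]
  try ring

theorem start : EZ (V := 3) S (fun _ _ => 0) (fun _ => 3) = EZ S m0 d0 := by
  congr 1
  · funext i j; fin_cases i <;> fin_cases j <;> rfl
  · funext i; fin_cases i <;> rfl
theorem total : EZ (V := 3) S (fun _ _ => 0) (fun _ => 3) = 0 := by
  rw [start]
  linear_combination 1 * s0 S + 6 * s1 S + 18 * s2 S + 12 * s3 S + 108 * s4 S + 12 * s5 S + 216 * s6 S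

end Pool.Agent.Y974.K3.P3V3
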