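import Pool.Agent.Y974.K3.Sys

/-!
# Moments of chaos elements: order 3, power 4 (generated)
-/

set_option autoImplicit false
set_option linter.unusedSectionVars false
set_option linter.unusedSimpArgs false
set_option maxRecDepth 4000

namespace Pool.Agent.Y974.K3.P3V4

open Finset

variable {R : Type} [CommRing R] [Algebra ℝ R] {K : Type} [Fintype K] (S : Sys R K)

def m0 : Fin 4 → Fin 4 → ℕ := ![![0, 0, 0, 0], ![0, 0, 0, 0], ![0, 0, 0, 0], ![0, 0, 0, 0]]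
def d0 : Fin 4 → ℕ := ![3, 3, 3, 3]
def m1 : Fin 4 → Fin 4 → ℕ := ![![0, 0, 0, 0], ![0, 0, 0, 0], ![0, 0, 0, 1], ![0, 0, 0, 0]]
def d1 : Fin 4 → ℕ := ![3, 3, 2, 2]
def m2 : Fin 4 → Fin 4 → ℕ := ![![0, 0, 0, 0], ![0, 0, 0, 1], ![0, 0, 0, 1], ![0, 0, 0, 0]]
def d2 : Fin 4 → ℕ := ![3, 2, 2, 1]
def m3 : Fin 4 → Fin 4 → ℕ := ![![0, 0, 0, 0], ![0, 0, 0, 0], ![0, 0, 0, 2], ![0, 0, 0, 0]]
def d3 : Fin 4 → ℕ := ![3, 3, 1, 1]
def m4 : Fin 4 → Fin 4 → ℕ := ![![0, 0, 0, 1], ![0, 0, 0, 1], ![0, 0, 0, 1], ![0, 0, 0, 0]]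
def d4 : Fin 4 → ℕ := ![2, 2, 2, 0]
def m5 : Fin 4 → Fin 4 → ℕ := ![![0, 0, 0, 0], ![0, 0, 0, 1], ![0, 0, 0, 2], ![0, 0, 0, 0]]
def d5 : Fin 4 → ℕ := ![3, 2, 1, 0]
def m6 : Fin 4 → Fin 4 → ℕ := ![![0, 0, 0, 0], ![0, 0, 0, 0], ![0, 0, 0, 3], ![0, 0, 0, 0]]
def d6 : Fin 4 → ℕ := ![3, 3, 0, 0]
def m7 : Fin 4 → Fin 4 → ℕ := ![![0, 0, 0, 1], ![0, 0, 1, 1], ![0, 0, 0, 1], ![0, 0, 0, 0]]
def d7 : Fin 4 → ℕ := ![2, 1, 1, 0]
def m8 : Fin 4 → Fin 4 → ℕ := ![![0, 0, 1, 0], ![0, 0, 0, 1], ![0, 0, 0, 2], ![0, 0, 0, 0]]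
def d8 : Fin 4 → ℕ := ![2, 2, 0, 0]
def m9 : Fin 4 → Fin 4 → ℕ := ![![0, 0, 0, 0], ![0, 0, 1, 1], ![0, 0, 0, 2], ![0, 0, 0, 0]]
def d9 : Fin 4 → ℕ := ![3, 1, 0, 0]
def m10 : Fin 4 → Fin 4 → ℕ := ![![0, 1, 0, 0], ![0, 0, 0, 0], ![0, 0, 0, 3], ![0, 0, 0, 0]]
def d10 : Fin 4 → ℕ := ![2, 2, 0, 0]
def m11 : Fin 4 → Fin 4 → ℕ := ![![0, 0, 1, 1], ![0, 0, 1, 1], ![0, 0, 0, 1], ![0, 0, 0, 0]]
def d11 : Fin 4 → ℕ := ![1, 1, 0, 0]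
def m12 : Fin 4 → Fin 4 → ℕ := ![![0, 1, 0, 0], ![0, 0, 1, 1], ![0, 0, 0, 2], ![0, 0, 0, 0]]
def d12 : Fin 4 → ℕ := ![2, 0, 0, 0]
def m13 : Fin 4 → Fin 4 → ℕ := ![![0, 1, 1, 0], ![0, 0, 0, 1], ![0, 0, 0, 2], ![0, 0, 0, 0]]
def d13 : Fin 4 → ℕ := ![1, 1, 0, 0]
def m14 : Fin 4 → Fin 4 → ℕ := ![![0, 2, 0, 0], ![0, 0, 0, 0], ![0, 0, 0, 3], ![0, 0, 0, 0]]
def d14 : Fin 4 → ℕ := ![1, 1, 0, 0]
def m15 : Fin 4 → Fin 4 → ℕ := ![![0, 1, 1, 1], ![0, 0, 1, 1], ![0, 0, 0, 1], ![0, 0, 0, 0]]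
def d15 : Fin 4 → ℕ := ![0, 0, 0, 0]
def m16 : Fin 4 → Fin 4 → ℕ := ![![0, 2, 1, 0], ![0, 0, 0, 1], ![0, 0, 0, 2], ![0, 0, 0, 0]]
def d16 : Fin 4 → ℕ := ![0, 0, 0, 0]
def m17 : Fin 4 → Fin 4 → ℕ := ![![0, 3, 0, 0], ![0, 0, 0, 0], ![0, 0, 0, 3], ![0, 0, 0, 0]]
def d17 : Fin 4 → ℕ := ![0, 0, 0, 0]

theorem s0 : EZ S m0 d0 = 9 * EZ S m1 d1 := by
  have h := EZ_step S m0 d0 0 ![m0, m1, m1, m1]
    ![d0, d1, d1, d1]
    ![Equiv.refl _, ⟨![2, 3, 0, 1], ![2, 3, 0, 1], by decide, by decide⟩, ⟨![2, 0, 3, 1], ![1, 3, 0, 2], by decide, by decide⟩, ⟨![2, 0, 1, 3], ![1, 2, 0, 3], by decide, by decide⟩] (by decide) (by decide)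
  rw [h, Fin.sum_univ_four]
  simp [d0]
  try ring
theorem s1 : EZ S m1 d1 = 6 * EZ S m2 d2 + 2 * EZ S m3 d3 := by
  have h := EZ_step S m1 d1 2 ![m2, m2, m1, m3]
    ![d2, d2, d1, d3]
    ![⟨![1, 0, 3, 2], ![1, 0, 3, 2], by decide, by decide⟩, ⟨![0, 1, 3, 2], ![0, 1, 3, 2], by decide, by decide⟩, Equiv.refl _, ⟨![0, 1, 2, 3], ![0, 1, 2, 3], by decide, by decide⟩] (by decide) (by decide)
  rw [h, Fin.sum_univ_four]
  simp [d1]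
  try ring
theorem s2 : EZ S m2 d2 = 3 * EZ S m4 d4 + 4 * EZ S m5 d5 := by
  have h := EZ_step S m2 d2 3 ![m4, m5, m5, m2]
    ![d4, d5, d5, d2]
    ![⟨![0, 1, 2, 3], ![0, 1, 2, 3], by decide, by decide⟩, ⟨![0, 2, 1, 3], ![0, 2, 1, 3], by decide, by decide⟩, ⟨![0, 1, 2, 3], ![0, 1, 2, 3], by decide, by decide⟩, Equiv.refl _] (by decide) (by decide)
  rw [h, Fin.sum_univ_four]
  simp [d2]
  try ring
theorem s3 : EZ S m3 d3 = 6 * EZ S m5 d5 + 1 * EZ S m6 d6 := by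
  have h := EZ_step S m3 d3 2 ![m5, m5, m3, m6]
    ![d5, d5, d3, d6]
    ![⟨![1, 0, 3, 2], ![1, 0, 3, 2], by decide, by decide⟩, ⟨![0, 1, 3, 2], ![0, 1, 3, 2], by decide, by decide⟩, Equiv.refl _, ⟨![0, 1, 2, 3], ![0, 1, 2, 3], by decide, by decide⟩] (by decide) (by decide)
  rw [h, Fin.sum_univ_four]
  simp [d3]
  try ring
theorem s4 : EZ S m4 d4 = 4 * EZ S m7 d7 := by
  have h := EZ_step S m4 d4 0 ![m4, m7, m7, m4]
    ![d4, d7, d7, d4]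
    ![Equiv.refl _, ⟨![1, 2, 0, 3], ![2, 0, 1, 3], by decide, by decide⟩, ⟨![1, 0, 2, 3], ![1, 0, 2, 3], by decide, by decide⟩, Equiv.refl _] (by decide) (by decide)
  rw [h, Fin.sum_univ_four]
  simp [d4]
  try ring
theorem s5 : EZ S m5 d5 = 3 * EZ S m8 d8 + 2 * EZ S m9 d9 := by
  have h := EZ_step S m5 d5 2 ![m8, m9, m5, m5]
    ![d8, d9, d5, d5]
    ![⟨![0, 1, 2, 3], ![0, 1, 2, 3], by decide, by decide⟩, ⟨![0, 1, 2, 3], ![0, 1, 2, 3], by decide, by decide⟩, Equiv.refl _, Equiv.refl _] (by decide) (by decide)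
  rw [h, Fin.sum_univ_four]
  simp [d5]
  try ring
theorem s6 : EZ S m6 d6 = 3 * EZ S m10 d10 := by
  have h := EZ_step S m6 d6 0 ![m6, m10, m6, m6]
    ![d6, d10, d6, d6]
    ![Equiv.refl _, ⟨![0, 1, 2, 3], ![0, 1, 2, 3], by decide, by decide⟩, Equiv.refl _, Equiv.refl _] (by decide) (by decide)
  rw [h, Fin.sum_univ_four]
  simp [d6]
  try ring
theorem s7 : EZ S m7 d7 = 2 * EZ S m11 d11 + 1 * EZ S m12 d12 := by
  have h := EZ_step S m7 d7 1 ![m11, m7, m12, m7]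
    ![d11, d7, d12, d7]
    ![⟨![0, 2, 1, 3], ![0, 2, 1, 3], by decide, by decide⟩, Equiv.refl _, ⟨![0, 2, 3, 1], ![0, 3, 1, 2], by decide, by decide⟩, Equiv.refl _] (by decide) (by decide)
  rw [h, Fin.sum_univ_four]
  simp [d7]
  try ring
theorem s8 : EZ S m8 d8 = 2 * EZ S m13 d13 := by
  have h := EZ_step S m8 d8 0 ![m8, m13, m8, m8]
    ![d8, d13, d8, d8]
    ![Equiv.refl _, ⟨![0, 1, 2, 3], ![0, 1, 2, 3], by decide, by decide⟩, Equiv.refl _, Equiv.refl _] (by decide) (by decide)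
  rw [h, Fin.sum_univ_four]
  simp [d8]
  try ring
theorem s9 : EZ S m9 d9 = 3 * EZ S m12 d12 := by
  have h := EZ_step S m9 d9 1 ![m12, m9, m9, m9]
    ![d12, d9, d9, d9]
    ![⟨![0, 1, 2, 3], ![0, 1, 2, 3], by decide, by decide⟩, Equiv.refl _, Equiv.refl _, Equiv.refl _] (by decide) (by decide)
  rw [h, Fin.sum_univ_four]
  simp [d9]
  try ring
theorem s10 : EZ S m10 d10 = 2 * EZ S m14 d14 := by
  have h := EZ_step S m10 d10 0 ![m10, m14, m10, m10]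
    ![d10, d14, d10, d10]
    ![Equiv.refl _, ⟨![0, 1, 2, 3], ![0, 1, 2, 3], by decide, by decide⟩, Equiv.refl _, Equiv.refl _] (by decide) (by decide)
  rw [h, Fin.sum_univ_four]
  simp [d10]
  try ring
theorem s11 : EZ S m11 d11 = 1 * EZ S m15 d15 := by
  have h := EZ_step S m11 d11 0 ![m11, m15, m11, m11]
    ![d11, d15, d11, d11]
    ![Equiv.refl _, ⟨![0, 1, 2, 3], ![0, 1, 2, 3], by decide, by decide⟩, Equiv.refl _, Equiv.refl _] (by decide) (by decide)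
  rw [h, Fin.sum_univ_four]
  simp [d11]
  try ring
theorem s12 : EZ S m12 d12 = 0 := by
  have h := EZ_step S m12 d12 0 ![m12, m12, m12, m12]
    ![d12, d12, d12, d12]
    ![Equiv.refl _, Equiv.refl _, Equiv.refl _, Equiv.refl _] (by decide) (by decide)
  rw [h, Fin.sum_univ_four]
  simp [d12]
  try ring
theorem s13 : EZ S m13 d13 = 1 * EZ S m16 d16 := by
  have h := EZ_step S m13 d13 0 ![m13, m16, m13, m13]
    ![d13, d16, d13, d13]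
    ![Equiv.refl _, ⟨![0, 1, 2, 3], ![0, 1, 2, 3], by decide, by decide⟩, Equiv.refl _, Equiv.refl _] (by decide) (by decide)
  rw [h, Fin.sum_univ_four]
  simp [d13]
  try ring
theorem s14 : EZ S m14 d14 = 1 * EZ S m17 d17 := by
  have h := EZ_step S m14 d14 0 ![m14, m17, m14, m14]
    ![d14, d17, d14, d14]
    ![Equiv.refl _, ⟨![0, 1, 2, 3], ![0, 1, 2, 3], by decide, by decide⟩, Equiv.refl _, Equiv.refl _] (by decide) (by decide)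
  rw [h, Fin.sum_univ_four]
  simp [d14]
  try ring

theorem z15 : EZ S m15 d15 = EY S m15 := EZ_zero S m15 d15 (by decide)
theorem z16 : EZ S m16 d16 = EY S m16 := EZ_zero S m16 d16 (by decide)
theorem z17 : EZ S m17 d17 = EY S m17 := EZ_zero S m17 d17 (by decide)
theorem start : EZ (V := 4) S (fun _ _ => 0) (fun _ => 3) = EZ S m0 d0 := by
  congr 1
  · funext i j; fin_cases i <;> fin_cases j <;> rfl
  · funext i; fin_cases i <;> rfl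
theorem total : EZ (V := 4) S (fun _ _ => 0) (fun _ => 3) = 1296 * EY S m15 + 1944 * EY S m16 + 108 * EY S m17 := by
  rw [start]
  simp only [← z15 S, ← z16 S, ← z17 S]
  linear_combination 1 * s0 S + 9 * s1 S + 54 * s2 S + 18 * s3 S + 162 * s4 S + 324 * s5 S + 18 * s6 S + 648 * s7 S + 972 * s8 S + 648 * s9 S + 54 * s10 S + 1296 * s11 S + 2592 * s12 S + 1944 * s13 S + 108 * s14 S

end Pool.Agent.Y974.K3.P3V4
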