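import Pool.Agent.Y974.K3.Flag
import Pool.Agent.Y974.K3.P3V2
import Pool.Agent.Y974.K3.P3V3
import Pool.Agent.Y974.K3.P3V4
import Pool.Agent.Y974.K3.P3V6

/-!
# The conditional sixth cumulant of a third chaos element
-/

set_option autoImplicit false
set_option linter.unusedSectionVars false
set_option maxRecDepth 4000

namespace Pool.Agent.Y974.K3

open Finset

variable {R : Type} [CommRing R] [Algebra ℝ R] {K : Type} [Fintype K] {n : ℕ}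

theorem append_const {α : Type} (a b : ℕ) (x : α) :
    Fin.append (fun _ : Fin a => x) (fun _ : Fin b => x) = fun _ => x := by
  funext i
  refine Fin.addCases (fun i => ?_) (fun i => ?_) i
  · rw [Fin.append_left]
  · rw [Fin.append_right]

theorem inner_c {v v' L : ℕ} (r : K → K → R) (hs : ∀ a b, r a b = r b a) (h : K → Fin n → R)
    (hh : ∀ a b, r a b = ∑ j, h a j * h b j) (c : K → R) (m : Fin v → Fin v → ℕ)
    (m' : Fin v' → Fin v' → ℕ) (φ : Fin L → Fin v) (φ' : Fin L → Fin v')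
    (M : Fin (v + v') → Fin (v + v') → ℕ) (σ : Equiv.Perm (Fin (v + v')))
    (hm : ∀ i j, glue m m' φ φ' i j + glue m m' φ φ' j i = M (σ i) (σ j) + M (σ j) (σ i)) :
    ∑ a, T r h (fun _ => c) m φ a * T r h (fun _ => c) m' φ' a = Y r (fun _ => c) M := by
  rw [inner r h hh, append_const]
  exact Y_rel r hs (fun _ => c) (fun _ => c) M _ σ hm (fun _ => rfl)

theorem mul_c {v v' : ℕ} (r : K → K → R) (hs : ∀ a b, r a b = r b a) (c : K → R)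
    (m : Fin v → Fin v → ℕ) (m' : Fin v' → Fin v' → ℕ)
    (M : Fin (v + v') → Fin (v + v') → ℕ) (σ : Equiv.Perm (Fin (v + v')))
    (hm : ∀ i j, glue m m' Fin.elim0 Fin.elim0 i j + glue m m' Fin.elim0 Fin.elim0 j i =
      M (σ i) (σ j) + M (σ j) (σ i)) :
    Y r (fun _ => c) m * Y r (fun _ => c) m' = Y r (fun _ => c) M := by
  rw [Y_mul, append_const]
  exact Y_rel r hs (fun _ => c) (fun _ => c) M _ σ hm (fun _ => rfl)

/-- `|f|²` -/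
def V2 (S : Sys R K) : R := Y S.r (fun _ => S.c) P3V2.m3
/-- `|f ⊗₂ f|²` -/
def R4 (S : Sys R K) : R := Y S.r (fun _ => S.c) P3V4.m16
/-- the tetrahedron -/
def K4 (S : Sys R K) : R := Y S.r (fun _ => S.c) P3V4.m15
/-- the hexagon with three double edges -/
def R6 (S : Sys R K) : R := Y S.r (fun _ => S.c) P3V6.m77

variable (S : Sys R K)

theorem V2_sq : V2 S ^ 2 = Y S.r (fun _ => S.c) P3V4.m17 := by
  rw [pow_two]
  exact mul_c S.r S.hs S.c P3V2.m3 P3V2.m3 P3V4.m17 (Equiv.refl _) (by decide)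

theorem V2_cube : V2 S ^ 3 = Y S.r (fun _ => S.c) P3V6.m79 := by
  have : V2 S ^ 3 = V2 S * V2 S ^ 2 := by ring
  rw [this, V2_sq]
  exact mul_c S.r S.hs S.c P3V2.m3 P3V4.m17 P3V6.m79 (Equiv.refl _) (by decide)

theorem V2_R4 : V2 S * R4 S = Y S.r (fun _ => S.c) P3V6.m78 :=
  mul_c S.r S.hs S.c P3V2.m3 P3V4.m16 P3V6.m78 (Equiv.refl _) (by decide)

theorem V2_K4 : V2 S * K4 S = Y S.r (fun _ => S.c) P3V6.m76 :=
  mul_c S.r S.hs S.c P3V2.m3 P3V4.m15 P3V6.m76 (Equiv.refl _) (by decide)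

/-- moments -/
theorem moments3 : S.E (XX S 3 ^ 2) = 6 * S.E (V2 S) ∧ S.E (XX S 3 ^ 3) = 0 ∧
    S.E (XX S 3 ^ 4) = 108 * S.E (V2 S ^ 2) + S.E (1944 * R4 S + 1296 * K4 S) ∧
    S.E (XX S 3 ^ 6) = 3240 * S.E (V2 S ^ 3) + 90 * S.E (V2 S * (1944 * R4 S + 1296 * K4 S)) +
      (2799360 * EY S P3V6.m71 + 1049760 * EY S P3V6.m72 + 466560 * EY S P3V6.m73 +
        2099520 * EY S P3V6.m74 + 4199040 * EY S P3V6.m75 + 699840 * EY S P3V6.m77) := by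
  have l1 : ∀ (k : ℕ) (x : R), S.E ((k : R) * x) = k * S.E x := by
    intro k x
    rw [← nsmul_eq_mul, map_nsmul, nsmul_eq_mul]
  refine ⟨?_, ?_, ?_, ?_⟩
  · rw [E_XX_pow, P3V2.total]; rfl
  · rw [E_XX_pow, P3V3.total]
  · rw [E_XX_pow, P3V4.total, V2_sq, map_add]
    have e1 := l1 1944 (R4 S)
    have e2 := l1 1296 (K4 S)
    push_cast at e1 e2
    rw [e1, e2]
    unfold EY R4 K4
    ring
  · rw [E_XX_pow, P3V6.total, V2_cube]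
    have e0 : V2 S * (1944 * R4 S + 1296 * K4 S) =
        ((1944 : ℕ) : R) * (V2 S * R4 S) + ((1296 : ℕ) : R) * (V2 S * K4 S) := by
      push_cast; ring
    rw [e0, map_add, l1, l1, V2_R4, V2_K4]
    unfold EY
    push_cast
    ring

variable (h : K → Fin n → R) (hh : ∀ a b, S.r a b = ∑ j, h a j * h b j)

/-- the chain of length three -/
def mP : Fin 3 → Fin 3 → ℕ := ![![0, 1, 0], ![0, 0, 1], ![0, 0, 0]]
/-- the triangle -/
def mT : Fin 3 → Fin 3 → ℕ := ![![0, 1, 1], ![0, 0, 1], ![0, 0, 0]]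
/-- the chain with a double edge -/
def mS : Fin 3 → Fin 3 → ℕ := ![![0, 2, 0], ![0, 0, 1], ![0, 0, 0]]
/-- the triangle with a double edge -/
def mD : Fin 3 → Fin 3 → ℕ := ![![0, 2, 1], ![0, 0, 1], ![0, 0, 0]]

abbrev TT {L : ℕ} (m : Fin 3 → Fin 3 → ℕ) (φ : Fin L → Fin 3) (a : Fin L → Fin n) : R :=
  T S.r h (fun _ => S.c) m φ a

include hh in
theorem sq_D : ∑ a : Fin 1 → Fin n, (1 * TT S h mD ![2] a) ^ 2 =
    1 * Y S.r (fun _ => S.c) P3V6.m72 := by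
  have e0_0 : ∑ a, TT S h mD ![2] a * TT S h mD ![2] a = Y S.r (fun _ => S.c) P3V6.m72 :=
    inner_c S.r S.hs h hh S.c mD mD ![2] ![2] P3V6.m72
      ⟨![0, 1, 2, 4, 5, 3], ![0, 1, 2, 5, 3, 4], by decide, by decide⟩ (by decide)
  have ex : ∀ a : Fin 1 → Fin n, (1 * TT S h mD ![2] a) ^ 2 =
      1 * (TT S h mD ![2] a * TT S h mD ![2] a) := by
    intro a; ring
  rw [Finset.sum_congr rfl fun a _ => ex a]
  simp only [Finset.sum_add_distrib, ← Finset.mul_sum, e0_0]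
  try ring

include hh in
theorem sq_R : ∑ a : Fin 3 → Fin n, (1 * TT S h mS ![0, 2, 2] a) ^ 2 =
    1 * Y S.r (fun _ => S.c) P3V6.m77 := by
  have e0_0 : ∑ a, TT S h mS ![0, 2, 2] a * TT S h mS ![0, 2, 2] a = Y S.r (fun _ => S.c) P3V6.m77 :=
    inner_c S.r S.hs h hh S.c mS mS ![0, 2, 2] ![0, 2, 2] P3V6.m77
      ⟨![0, 1, 3, 2, 4, 5], ![0, 1, 3, 2, 4, 5], by decide, by decide⟩ (by decide)
  have ex : ∀ a : Fin 3 → Fin n, (1 * TT S h mS ![0, 2, 2] a) ^ 2 =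
      1 * (TT S h mS ![0, 2, 2] a * TT S h mS ![0, 2, 2] a) := by
    intro a; ring
  rw [Finset.sum_congr rfl fun a _ => ex a]
  simp only [Finset.sum_add_distrib, ← Finset.mul_sum, e0_0]
  try ring

include hh in
theorem sq_C : ∑ a : Fin 5 → Fin n, (1 * TT S h mP ![0, 0, 1, 2, 2] a) ^ 2 =
    1 * Y S.r (fun _ => S.c) P3V6.m74 := by
  have e0_0 : ∑ a, TT S h mP ![0, 0, 1, 2, 2] a * TT S h mP ![0, 0, 1, 2, 2] a = Y S.r (fun _ => S.c) P3V6.m74 :=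
    inner_c S.r S.hs h hh S.c mP mP ![0, 0, 1, 2, 2] ![0, 0, 1, 2, 2] P3V6.m74
      ⟨![0, 2, 4, 1, 3, 5], ![0, 3, 1, 4, 2, 5], by decide, by decide⟩ (by decide)
  have ex : ∀ a : Fin 5 → Fin n, (1 * TT S h mP ![0, 0, 1, 2, 2] a) ^ 2 =
      1 * (TT S h mP ![0, 0, 1, 2, 2] a * TT S h mP ![0, 0, 1, 2, 2] a) := by
    intro a; ring
  rw [Finset.sum_congr rfl fun a _ => ex a]
  simp only [Finset.sum_add_distrib, ← Finset.mul_sum, e0_0]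
  try ring

include hh in
theorem sq_CC : ∑ a : Fin 5 → Fin n, (1 * TT S h mP ![0, 0, 1, 2, 2] a + 1 * TT S h mP ![0, 2, 1, 0, 2] a) ^ 2 =
    2 * Y S.r (fun _ => S.c) P3V6.m73 + 2 * Y S.r (fun _ => S.c) P3V6.m74 := by
  have e0_0 : ∑ a, TT S h mP ![0, 0, 1, 2, 2] a * TT S h mP ![0, 0, 1, 2, 2] a = Y S.r (fun _ => S.c) P3V6.m74 :=
    inner_c S.r S.hs h hh S.c mP mP ![0, 0, 1, 2, 2] ![0, 0, 1, 2, 2] P3V6.m74
      ⟨![0, 2, 4, 1, 3, 5], ![0, 3, 1, 4, 2, 5], by decide, by decide⟩ (by decide)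
  have e0_1 : ∑ a, TT S h mP ![0, 0, 1, 2, 2] a * TT S h mP ![0, 2, 1, 0, 2] a = Y S.r (fun _ => S.c) P3V6.m73 :=
    inner_c S.r S.hs h hh S.c mP mP ![0, 0, 1, 2, 2] ![0, 2, 1, 0, 2] P3V6.m73
      ⟨![0, 1, 4, 2, 5, 3], ![0, 1, 3, 5, 2, 4], by decide, by decide⟩ (by decide)
  have e1_1 : ∑ a, TT S h mP ![0, 2, 1, 0, 2] a * TT S h mP ![0, 2, 1, 0, 2] a = Y S.r (fun _ => S.c) P3V6.m74 :=
    inner_c S.r S.hs h hh S.c mP mP ![0, 2, 1, 0, 2] ![0, 2, 1, 0, 2] P3V6.m74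
      ⟨![0, 2, 4, 1, 3, 5], ![0, 3, 1, 4, 2, 5], by decide, by decide⟩ (by decide)
  have ex : ∀ a : Fin 5 → Fin n, (1 * TT S h mP ![0, 0, 1, 2, 2] a + 1 * TT S h mP ![0, 2, 1, 0, 2] a) ^ 2 =
      1 * (TT S h mP ![0, 0, 1, 2, 2] a * TT S h mP ![0, 0, 1, 2, 2] a) + 2 * (TT S h mP ![0, 0, 1, 2, 2] a * TT S h mP ![0, 2, 1, 0, 2] a) + 1 * (TT S h mP ![0, 2, 1, 0, 2] a * TT S h mP ![0, 2, 1, 0, 2] a) := by
    intro a; ring
  rw [Finset.sum_congr rfl fun a _ => ex a]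
  simp only [Finset.sum_add_distrib, ← Finset.mul_sum, e0_0, e0_1, e1_1]
  try ring

include hh in
theorem sq_TS : ∑ a : Fin 3 → Fin n, (4 * TT S h mT ![0, 1, 2] a + 1 * TT S h mS ![0, 2, 2] a + 1 * TT S h mS ![2, 0, 2] a + 1 * TT S h mS ![2, 2, 0] a) ^ 2 =
    16 * Y S.r (fun _ => S.c) P3V6.m71 + 6 * Y S.r (fun _ => S.c) P3V6.m74 + 24 * Y S.r (fun _ => S.c) P3V6.m75 + 3 * Y S.r (fun _ => S.c) P3V6.m77 := by
  have e0_0 : ∑ a, TT S h mT ![0, 1, 2] a * TT S h mT ![0, 1, 2] a = Y S.r (fun _ => S.c) P3V6.m71 :=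
    inner_c S.r S.hs h hh S.c mT mT ![0, 1, 2] ![0, 1, 2] P3V6.m71
      ⟨![0, 1, 2, 3, 4, 5], ![0, 1, 2, 3, 4, 5], by decide, by decide⟩ (by decide)
  have e0_1 : ∑ a, TT S h mT ![0, 1, 2] a * TT S h mS ![0, 2, 2] a = Y S.r (fun _ => S.c) P3V6.m75 :=
    inner_c S.r S.hs h hh S.c mT mS ![0, 1, 2] ![0, 2, 2] P3V6.m75
      ⟨![2, 4, 5, 0, 1, 3], ![3, 4, 0, 5, 1, 2], by decide, by decide⟩ (by decide)
  have e0_2 : ∑ a, TT S h mT ![0, 1, 2] a * TT S h mS ![2, 0, 2] a = Y S.r (fun _ => S.c) P3V6.m75 :=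
    inner_c S.r S.hs h hh S.c mT mS ![0, 1, 2] ![2, 0, 2] P3V6.m75
      ⟨![4, 2, 5, 0, 1, 3], ![3, 4, 1, 5, 0, 2], by decide, by decide⟩ (by decide)
  have e0_3 : ∑ a, TT S h mT ![0, 1, 2] a * TT S h mS ![2, 2, 0] a = Y S.r (fun _ => S.c) P3V6.m75 :=
    inner_c S.r S.hs h hh S.c mT mS ![0, 1, 2] ![2, 2, 0] P3V6.m75
      ⟨![4, 5, 2, 0, 1, 3], ![3, 4, 2, 5, 0, 1], by decide, by decide⟩ (by decide)
  have e1_1 : ∑ a, TT S h mS ![0, 2, 2] a * TT S h mS ![0, 2, 2] a = Y S.r (fun _ => S.c) P3V6.m77 :=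
    inner_c S.r S.hs h hh S.c mS mS ![0, 2, 2] ![0, 2, 2] P3V6.m77
      ⟨![0, 1, 3, 2, 4, 5], ![0, 1, 3, 2, 4, 5], by decide, by decide⟩ (by decide)
  have e1_2 : ∑ a, TT S h mS ![0, 2, 2] a * TT S h mS ![2, 0, 2] a = Y S.r (fun _ => S.c) P3V6.m74 :=
    inner_c S.r S.hs h hh S.c mS mS ![0, 2, 2] ![2, 0, 2] P3V6.m74
      ⟨![0, 1, 3, 5, 4, 2], ![0, 1, 5, 2, 4, 3], by decide, by decide⟩ (by decide)
  have e1_3 : ∑ a, TT S h mS ![0, 2, 2] a * TT S h mS ![2, 2, 0] a = Y S.r (fun _ => S.c) P3V6.m74 :=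
    inner_c S.r S.hs h hh S.c mS mS ![0, 2, 2] ![2, 2, 0] P3V6.m74
      ⟨![0, 1, 3, 5, 4, 2], ![0, 1, 5, 2, 4, 3], by decide, by decide⟩ (by decide)
  have e2_2 : ∑ a, TT S h mS ![2, 0, 2] a * TT S h mS ![2, 0, 2] a = Y S.r (fun _ => S.c) P3V6.m77 :=
    inner_c S.r S.hs h hh S.c mS mS ![2, 0, 2] ![2, 0, 2] P3V6.m77
      ⟨![0, 1, 3, 2, 4, 5], ![0, 1, 3, 2, 4, 5], by decide, by decide⟩ (by decide)
  have e2_3 : ∑ a, TT S h mS ![2, 0, 2] a * TT S h mS ![2, 2, 0] a = Y S.r (fun _ => S.c) P3V6.m74 :=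
    inner_c S.r S.hs h hh S.c mS mS ![2, 0, 2] ![2, 2, 0] P3V6.m74
      ⟨![0, 1, 3, 5, 4, 2], ![0, 1, 5, 2, 4, 3], by decide, by decide⟩ (by decide)
  have e3_3 : ∑ a, TT S h mS ![2, 2, 0] a * TT S h mS ![2, 2, 0] a = Y S.r (fun _ => S.c) P3V6.m77 :=
    inner_c S.r S.hs h hh S.c mS mS ![2, 2, 0] ![2, 2, 0] P3V6.m77
      ⟨![0, 1, 3, 2, 4, 5], ![0, 1, 3, 2, 4, 5], by decide, by decide⟩ (by decide)
  have ex : ∀ a : Fin 3 → Fin n, (4 * TT S h mT ![0, 1, 2] a + 1 * TT S h mS ![0, 2, 2] a + 1 * TT S h mS ![2, 0, 2] a + 1 * TT S h mS ![2, 2, 0] a) ^ 2 =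
      16 * (TT S h mT ![0, 1, 2] a * TT S h mT ![0, 1, 2] a) + 8 * (TT S h mT ![0, 1, 2] a * TT S h mS ![0, 2, 2] a) + 8 * (TT S h mT ![0, 1, 2] a * TT S h mS ![2, 0, 2] a) + 8 * (TT S h mT ![0, 1, 2] a * TT S h mS ![2, 2, 0] a) + 1 * (TT S h mS ![0, 2, 2] a * TT S h mS ![0, 2, 2] a) + 2 * (TT S h mS ![0, 2, 2] a * TT S h mS ![2, 0, 2] a) + 2 * (TT S h mS ![0, 2, 2] a * TT S h mS ![2, 2, 0] a) + 1 * (TT S h mS ![2, 0, 2] a * TT S h mS ![2, 0, 2] a) + 2 * (TT S h mS ![2, 0, 2] a * TT S h mS ![2, 2, 0] a) + 1 * (TT S h mS ![2, 2, 0] a * TT S h mS ![2, 2, 0] a) := by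
    intro a; ring
  rw [Finset.sum_congr rfl fun a _ => ex a]
  simp only [Finset.sum_add_distrib, ← Finset.mul_sum, e0_0, e0_1, e0_2, e0_3, e1_1, e1_2, e1_3, e2_2, e2_3, e3_3]
  try ring


include hh in
theorem six_ge (hp : ∀ P, 0 ≤ S.E (P ^ 2)) :
    174960 * S.E (R6 S) ≤ 2799360 * EY S P3V6.m71 + 1049760 * EY S P3V6.m72 +
      466560 * EY S P3V6.m73 + 2099520 * EY S P3V6.m74 + 4199040 * EY S P3V6.m75 +
      699840 * EY S P3V6.m77 := by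
  have l1 : ∀ (k : ℕ) (x : R), S.E ((k : R) * x) = k * S.E x := by
    intro k x
    rw [← nsmul_eq_mul, map_nsmul, nsmul_eq_mul]
  have sq : ∀ {L : ℕ} (f : (Fin L → Fin n) → R), 0 ≤ S.E (∑ a, f a ^ 2) := by
    intro L f
    rw [map_sum]
    exact Finset.sum_nonneg fun a _ => hp _
  have h1 := sq (fun a => 1 * TT S h mD ![2] a)
  have h2 := sq (fun a => 1 * TT S h mS ![0, 2, 2] a)
  have h3 := sq (fun a => 1 * TT S h mP ![0, 0, 1, 2, 2] a)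
  have h4 := sq (fun a => 1 * TT S h mP ![0, 0, 1, 2, 2] a + 1 * TT S h mP ![0, 2, 1, 0, 2] a)
  have h5 := sq (fun a => 4 * TT S h mT ![0, 1, 2] a + 1 * TT S h mS ![0, 2, 2] a +
    1 * TT S h mS ![2, 0, 2] a + 1 * TT S h mS ![2, 2, 0] a)
  rw [sq_D S h hh] at h1
  rw [sq_R S h hh] at h2
  rw [sq_C S h hh] at h3
  rw [sq_CC S h hh] at h4
  rw [sq_TS S h hh] at h5
  have c1 := l1 1
  have c2 := l1 2
  have c3 := l1 3
  have c6 := l1 6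
  have c16 := l1 16
  have c24 := l1 24
  push_cast at c1 c2 c3 c6 c16 c24
  simp only [map_add, c1, c2, c3, c6, c16, c24] at h1 h2 h3 h4 h5
  unfold EY R6
  nlinarith [h1, h2, h3, h4, h5]

end Pool.Agent.Y974.K3
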