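import Pool.Agent.Y974.K3.Fin3

/-!
# The hexagon with three double edges
-/

set_option autoImplicit false
set_option linter.unusedSectionVars false
set_option linter.unusedSimpArgs false

namespace Pool.Agent.Y974.K3

open Finset MvPolynomial Pool.Agent.TH722.K6

variable {β : Type} [Fintype β] [DecidableEq β] {n : ℕ}
variable (b : β) (L : List β) (a : Fin n × Fin n × Fin n → List (Fin n) → ℝ) (hb : b ∉ L)

theorem sum_swap {α γ M : Type} [Fintype α] [Fintype γ] [AddCommMonoid M]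
    (G : α → α → α → γ → γ → γ → M) :
    ∑ x, ∑ y, ∑ z, ∑ d, ∑ e, ∑ f, G x y z d e f = ∑ d, ∑ e, ∑ f, ∑ x, ∑ y, ∑ z, G x y z d e f := by
  have h1 : ∑ p : α × α × α, ∑ q : γ × γ × γ, G p.1 p.2.1 p.2.2 q.1 q.2.1 q.2.2 =
      ∑ x, ∑ y, ∑ z, ∑ d, ∑ e, ∑ f, G x y z d e f := by
    simp only [Fintype.sum_prod_type]
  have h2 : ∑ q : γ × γ × γ, ∑ p : α × α × α, G p.1 p.2.1 p.2.2 q.1 q.2.1 q.2.2 =
      ∑ d, ∑ e, ∑ f, ∑ x, ∑ y, ∑ z, G x y z d e f := by
    simp only [Fintype.sum_prod_type]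
  rw [← h1, ← h2, Finset.sum_comm]

theorem TS_eq (ha : Sy a) (x : Fin 3 → Fin n) :
    T (sys b L a hb).r hp (fun _ => (sys b L a hb).c) mS ![0, 2, 2] x =
      ∑ d, (∑ e, ∑ f, F L (a (x 0, e, f)) * F L (a (d, e, f))) * F L (a (d, x 1, x 2)) := by
  unfold T
  rw [sum_fin3]
  have hW : ∀ p q s : KK n, W (sys b L a hb).r mS ![p, q, s] =
      (sys b L a hb).r p q ^ 2 * (sys b L a hb).r q s := by
    intro p q s
    unfold W mS
    simp [Fin.prod_univ_three]
  simp only [hW, ← pol b L a hb ha, hh_sys, Fin.prod_univ_three]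
  generalize (sys b L a hb).c = c
  have e1 : ∀ p q s : KK n, (∑ j, hp p j * hp q j : MvPolynomial (β × Fin n) ℝ) ^ 2 *
      (∑ j, hp q j * hp s j) * (c p * c q * c s) * (hp p (x 0) * hp s (x 1) * hp s (x 2)) =
      ∑ d, ∑ e, ∑ f, (c p * c q * c s) * (hp p (x 0) * hp s (x 1) * hp s (x 2)) *
        ((hp q d * hp s d) * ((hp p e * hp q e) * (hp p f * hp q f))) := by
    intro p q s
    rw [pow_two, Finset.sum_mul_sum]
    simp only [← Finset.mul_sum, ← Finset.sum_mul]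
    ring
  have e2 : ∀ d, (∑ e, ∑ f, (∑ κ : KK n, c κ * (hp κ (x 0) * hp κ e * hp κ f)) *
      ∑ κ : KK n, c κ * (hp κ d * hp κ e * hp κ f)) *
      ∑ κ : KK n, c κ * (hp κ d * hp κ (x 1) * hp κ (x 2)) =
      ∑ e, ∑ f, ∑ p, ∑ q, ∑ s, (c p * c q * c s) * (hp p (x 0) * hp s (x 1) * hp s (x 2)) *
        ((hp q d * hp s d) * ((hp p e * hp q e) * (hp p f * hp q f))) := by
    intro d
    rw [Finset.sum_mul]
    refine Finset.sum_congr rfl fun e _ => ?_
    rw [Finset.sum_mul]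
    refine Finset.sum_congr rfl fun f _ => ?_
    rw [Finset.sum_mul_sum, Finset.sum_mul]
    refine Finset.sum_congr rfl fun p _ => ?_
    rw [Finset.sum_mul]
    refine Finset.sum_congr rfl fun q _ => ?_
    rw [Finset.mul_sum]
    refine Finset.sum_congr rfl fun s _ => ?_
    ring
  rw [Finset.sum_congr rfl fun d _ => e2 d, ← sum_swap]
  refine Finset.sum_congr rfl fun p _ => Finset.sum_congr rfl fun q _ =>
    Finset.sum_congr rfl fun s _ => ?_
  rw [← e1]
  simp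

theorem R6_eq (ha : Sy a) : R6 (sys b L a hb) = ∑ i, ∑ j, ∑ k,
    (∑ d, (∑ e, ∑ f, F L (a (i, e, f)) * F L (a (d, e, f))) * F L (a (d, j, k))) ^ 2 := by
  have h := sq_R (sys b L a hb) hp (hh_sys b L a hb)
  rw [one_mul] at h
  unfold R6
  rw [← h, sum_fin3]
  refine Finset.sum_congr rfl fun i _ => Finset.sum_congr rfl fun j _ =>
    Finset.sum_congr rfl fun k _ => ?_
  have := TS_eq b L a hb ha ![i, j, k]
  unfold TT
  rw [this, one_mul]
  rfl

theorem Ex_R6_nil (hb' : b ∉ ([] : List β)) (ha : Sy a) :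
    Ex (R6 (sys b ([] : List β) a hb')) =
      tr3 (Mm (fun (s : Fin n × Fin n) i => a (i, s.1, s.2) [])) := by
  rw [R6_eq b [] a hb' ha, tr3_Mm_eq]
  simp only [F_nil, ← C_mul, ← map_sum, ← map_pow, Ex_C]
  refine Finset.sum_congr rfl fun i _ => ?_
  rw [Fintype.sum_prod_type]
  refine Finset.sum_congr rfl fun j _ => Finset.sum_congr rfl fun k _ => ?_
  congr 1
  refine Finset.sum_congr rfl fun d _ => ?_
  unfold Mm
  rw [Fintype.sum_prod_type]

theorem Ex_R6_nonneg (ha : Sy a) : 0 ≤ Ex (R6 (sys b L a hb)) := by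
  rw [R6_eq b L a hb ha]
  simp only [map_sum]
  exact Finset.sum_nonneg fun i _ => Finset.sum_nonneg fun j _ => Finset.sum_nonneg fun k _ =>
    Ex_sq_nonneg _

end Pool.Agent.Y974.K3
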