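import Pool.Agent.Y974.K3.Net

/-!
# A linear functional with Gaussian integration by parts
-/

set_option autoImplicit false
set_option linter.unusedSectionVars false

namespace Pool.Agent.Y974.K3

open Finset

/-- a linear functional satisfying Gaussian integration by parts for a family of linear forms,
with coefficients killed by the derivations -/
structure Sys (R : Type) [CommRing R] [Algebra ℝ R] (K : Type) where
  l : K → R
  D : K → Derivation ℝ R R
  r : K → K → R
  E : R →ₗ[ℝ] ℝ
  c : K → R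
  hl : ∀ k k', D k (l k') = r k k'
  hr : ∀ k a b, D k (r a b) = 0
  hE : ∀ k P, E (l k * P) = E (D k P)
  hc : ∀ k k', D k (c k') = 0
  hs : ∀ a b, r a b = r b a

variable {R : Type} [CommRing R] [Algebra ℝ R] {K : Type} [Fintype K] {V : ℕ}

/-- expectation of a network -/
def EZ (S : Sys R K) (m : Fin V → Fin V → ℕ) (d : Fin V → ℕ) : ℝ := S.E (Z S.l S.r S.c m d)

/-- expectation of a closed network -/
def EY (S : Sys R K) (m : Fin V → Fin V → ℕ) : ℝ := S.E (Y S.r (fun _ => S.c) m)

theorem EZ_zero (S : Sys R K) (m : Fin V → Fin V → ℕ) (d : Fin V → ℕ) (hd : ∀ i, d i = 0) :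
    EZ S m d = EY S m := by
  unfold EZ EY
  rw [Z_zero _ _ _ _ _ hd]

theorem EZ_step (S : Sys R K) (m : Fin V → Fin V → ℕ) (d : Fin V → ℕ) (v : Fin V)
    (m' : Fin V → Fin V → Fin V → ℕ) (d' : Fin V → Fin V → ℕ) (σ : Fin V → Equiv.Perm (Fin V))
    (hv : d v ≠ 0)
    (h : ∀ j, j = v ∨ d j = 0 ∨ ((∀ a b, bump m v j a b + bump m v j b a =
      m' j (σ j a) (σ j b) + m' j (σ j b) (σ j a)) ∧ ∀ a, dec d v j a = d' j (σ j a))) :
    EZ S m d = ∑ j, (if j = v then 0 else (d j : ℝ)) * EZ S (m' j) (d' j) := by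
  have := Z_step_rel S.l S.D S.r S.hl S.hr S.E S.hE S.c S.hc S.hs 1 (fun k => by simp) m d v
    m' d' σ hv h
  simp only [one_mul] at this
  exact this

/-- the `d`-th chaos element with coefficients `c` -/
def XX (S : Sys R K) (p : ℕ) : R := ∑ k, S.c k * H S.l S.r k p

theorem XX_pow (S : Sys R K) (p V : ℕ) :
    XX S p ^ V = Z (V := V) S.l S.r S.c (fun _ _ => 0) (fun _ => p) := by
  classical
  unfold XX Z
  have h := Finset.prod_univ_sum (fun _ : Fin V => (Finset.univ : Finset K))
    (fun _ k => S.c k * H S.l S.r k p)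
  rw [Finset.prod_const, Finset.card_univ, Fintype.card_fin] at h
  rw [h, Fintype.piFinset_univ]
  refine Finset.sum_congr rfl fun κ _ => ?_
  unfold W
  simp [Finset.prod_mul_distrib]

theorem E_XX_pow (S : Sys R K) (p V : ℕ) :
    S.E (XX S p ^ V) = EZ (V := V) S (fun _ _ => 0) (fun _ => p) := by
  rw [XX_pow]; rfl

end Pool.Agent.Y974.K3
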