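import Pool.Agent.Y974.K3.Cvx3

/-!
# Third chaos elements with multilinear coefficients
-/

set_option autoImplicit false
set_option linter.unusedSectionVars false
set_option linter.unusedSimpArgs false

namespace Pool.Agent.Y974.K3

open Finset MvPolynomial Pool.Agent.TH722.K6

variable {β : Type} [Fintype β] [DecidableEq β] {n : ℕ}

/-- the index set of the polarisation -/
abbrev KK (n : ℕ) : Type := (Fin n × Fin n × Fin n) × (Bool × Bool)

/-- signs -/
def sg (x : Bool) : ℝ := if x then 1 else -1

/-- the vectors of the polarisation -/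
def hv (k : KK n) (j : Fin n) : ℝ :=
  (if j = k.1.1 then 1 else 0) + sg k.2.1 * (if j = k.1.2.1 then 1 else 0) +
    sg k.2.2 * (if j = k.1.2.2 then 1 else 0)

/-- the system -/
noncomputable def sys (b : β) (L : List β) (a : Fin n × Fin n × Fin n → List (Fin n) → ℝ)
    (hb : b ∉ L) : Sys (MvPolynomial (β × Fin n) ℝ) (KK n) where
  l k := ∑ j, C (hv k j) * X (b, j)
  D k := Dw b (fun j => C (hv k j))
  r k k' := ∑ j, C (hv k j) * C (hv k' j)
  E := Ex
  c k := C (sg k.2.1 * sg k.2.2 / 24) * F L (a k.1)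
  hl k k' := by
    rw [Dw_apply]
    refine Finset.sum_congr rfl fun j _ => ?_
    congr 1
    rw [map_sum, Finset.sum_eq_single j]
    · rw [Derivation.leibniz, pderiv_X_self, pderiv_C]; simp
    · intro i _ hi
      rw [Derivation.leibniz, pderiv_C, pderiv_X_of_ne (fun e => hi (Prod.mk.inj e).2)]
      simp
    · intro h; exact absurd (Finset.mem_univ _) h
  hr k x y := by
    rw [map_sum]
    refine Finset.sum_eq_zero fun j _ => ?_
    rw [← C_mul, Dw_apply]
    exact Finset.sum_eq_zero fun i _ => by rw [pderiv_C, mul_zero]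
  hE k P := by
    rw [Finset.sum_mul, map_sum, Dw_apply, map_sum]
    refine Finset.sum_congr rfl fun j _ => ?_
    rw [mul_assoc, Ex_C_mul, stein, Ex_C_mul]
  hc k k' := by
    rw [Derivation.leibniz, Dw_free b L _ hb, Dw_apply]
    simp only [pderiv_C, mul_zero, Finset.sum_const_zero, smul_zero, add_zero]
  hs x y := Finset.sum_congr rfl fun j _ => mul_comm _ _

/-- the third chaos element with coefficients `F L (a (i, j, k))` -/
noncomputable def CF (b : β) (L : List β) (a : Fin n × Fin n × Fin n → List (Fin n) → ℝ) :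
    MvPolynomial (β × Fin n) ℝ :=
  ∑ t : Fin n × Fin n × Fin n, F L (a t) * (X (b, t.1) * X (b, t.2.1) * X (b, t.2.2)
    - C (if t.1 = t.2.1 then 1 else 0) * X (b, t.2.2)
    - C (if t.1 = t.2.2 then 1 else 0) * X (b, t.2.1)
    - C (if t.2.1 = t.2.2 then 1 else 0) * X (b, t.1))

variable (b : β) (L : List β) (a : Fin n × Fin n × Fin n → List (Fin n) → ℝ) (hb : b ∉ L)

theorem l_eq (k : KK n) : (sys b L a hb).l k =
    X (b, k.1.1) + C (sg k.2.1) * X (b, k.1.2.1) + C (sg k.2.2) * X (b, k.1.2.2) := by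
  show ∑ j, C (hv k j) * X (b, j) = _
  unfold hv
  simp only [map_add, map_mul, add_mul, Finset.sum_add_distrib]
  have e : ∀ (x : Fin n) (s : MvPolynomial (β × Fin n) ℝ),
      ∑ j, s * C (if j = x then (1 : ℝ) else 0) * X (b, j) = s * X (b, x) := by
    intro x s
    rw [Finset.sum_eq_single x]
    · simp
    · intro j _ hj; simp [hj]
    · intro h; exact absurd (Finset.mem_univ _) h
  have e1 := e k.1.1 1
  simp only [one_mul] at e1
  rw [e1, e, e]

theorem r_eq (k : KK n) : (sys b L a hb).r k k =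
    C (3 + 2 * (sg k.2.1 * (if k.1.1 = k.1.2.1 then 1 else 0) +
      sg k.2.2 * (if k.1.1 = k.1.2.2 then 1 else 0) +
      sg k.2.1 * sg k.2.2 * (if k.1.2.1 = k.1.2.2 then 1 else 0))) := by
  show ∑ j, C (hv k j) * C (hv k j) = _
  simp only [← C_mul, ← map_sum]
  congr 1
  have s2 : ∀ x : Bool, sg x * sg x = 1 := by intro x; cases x <;> simp [sg]
  have e : ∀ x y : Fin n, ∑ j, (if j = x then (1 : ℝ) else 0) * (if j = y then 1 else 0) =
      if x = y then 1 else 0 := by
    intro x y
    rw [Finset.sum_eq_single x]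
    · simp
    · intro j _ hj; simp [hj]
    · intro h; exact absurd (Finset.mem_univ _) h
  obtain ⟨⟨x, y, z⟩, ⟨s, t⟩⟩ := k
  unfold hv
  simp only
  have ex : ∀ j : Fin n, ((if j = x then (1 : ℝ) else 0) + sg s * (if j = y then 1 else 0) +
      sg t * (if j = z then 1 else 0)) * ((if j = x then (1 : ℝ) else 0) +
      sg s * (if j = y then 1 else 0) + sg t * (if j = z then 1 else 0)) =
      (if j = x then (1 : ℝ) else 0) * (if j = x then 1 else 0) +
      (sg s * sg s) * ((if j = y then (1 : ℝ) else 0) * (if j = y then 1 else 0)) +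
      (sg t * sg t) * ((if j = z then (1 : ℝ) else 0) * (if j = z then 1 else 0)) +
      (2 * sg s) * ((if j = x then (1 : ℝ) else 0) * (if j = y then 1 else 0)) +
      (2 * sg t) * ((if j = x then (1 : ℝ) else 0) * (if j = z then 1 else 0)) +
      (2 * sg s * sg t) * ((if j = y then (1 : ℝ) else 0) * (if j = z then 1 else 0)) := by
    intro j; ring
  simp only [ex, Finset.sum_add_distrib, ← Finset.mul_sum, e, s2, if_true]
  ring

theorem XX_eq : XX (sys b L a hb) 3 = CF b L a := by
  unfold XX CF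
  rw [Fintype.sum_prod_type]
  refine Finset.sum_congr rfl fun t _ => ?_
  rw [Fintype.sum_prod_type]
  simp only [Fintype.sum_bool]
  have H3 : ∀ k : KK n, H (sys b L a hb).l (sys b L a hb).r k 3 =
      (sys b L a hb).l k * ((sys b L a hb).l k * (sys b L a hb).l k -
        (sys b L a hb).r k k) - 2 * (sys b L a hb).r k k * (sys b L a hb).l k := by
    intro k
    rw [H_two, H_two, H_one, H_zero]
    push_cast
    ring
  simp only [H3, l_eq, r_eq]
  obtain ⟨c24, h24⟩ : ∃ c24 : MvPolynomial (β × Fin n) ℝ, c24 = C (1 / 24) := ⟨_, rfl⟩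
  have hc : ∀ k : KK n, (sys b L a hb).c k = C (sg k.2.1) * C (sg k.2.2) * c24 * F L (a k.1) := by
    intro k
    show C (sg k.2.1 * sg k.2.2 / 24) * F L (a k.1) = _
    rw [h24, ← C_mul, ← C_mul]
    congr 2
    ring
  simp only [hc, sg, if_true, if_false, Bool.false_eq_true]
  obtain ⟨x, y, z⟩ := t
  simp only
  generalize F L (a (x, y, z)) = f
  generalize (X (b, x) : MvPolynomial (β × Fin n) ℝ) = u
  generalize (X (b, y) : MvPolynomial (β × Fin n) ℝ) = v
  generalize (X (b, z) : MvPolynomial (β × Fin n) ℝ) = w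
  generalize (if x = y then (1 : ℝ) else 0) = p
  generalize (if x = z then (1 : ℝ) else 0) = q
  generalize (if y = z then (1 : ℝ) else 0) = s
  have h25 : c24 * 24 = 1 := by
    have : (24 : MvPolynomial (β × Fin n) ℝ) = C 24 := (map_ofNat C 24).symm
    rw [h24, this, ← C_mul]; norm_num
  simp only [map_add, map_mul, map_neg, map_one, map_ofNat]
  linear_combination (f * (u * v * w - C p * w - C q * v - C s * u)) * h25

end Pool.Agent.Y974.K3
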